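import Mathlib

section

namespace Pool.Agent.MP_d920b6_mp.Nil

open Finset

section U

variable {K R F ι : Type*} [Field K] [CharZero K] [CommRing R] [Algebra K R] [Field F]
  [Algebra K F]

/-- the largest ideal inside `ker σ` stable under all `δ i` -/
def bigJ (σ : R →ₐ[K] F) (δ : ι → Derivation K R R) : Ideal R :=
  sSup {I : Ideal R | (∀ u ∈ I, σ u = 0) ∧ ∀ i, ∀ u ∈ I, δ i u ∈ I}

omit [CharZero K] in
lemma bigJ_spec (σ : R →ₐ[K] F) (δ : ι → Derivation K R R) :
    ∀ u ∈ bigJ σ δ, σ u = 0 ∧ ∀ i, δ i u ∈ bigJ σ δ := by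
  intro u hu
  unfold bigJ at hu
  rw [sSup_eq_iSup'] at hu
  refine Submodule.iSup_induction (motive := fun u => σ u = 0 ∧ ∀ i, δ i u ∈ bigJ σ δ)
    _ hu ?_ ?_ ?_
  · rintro ⟨I, hI⟩ x hx
    exact ⟨hI.1 x hx, fun i => (le_sSup hI : I ≤ bigJ σ δ) (hI.2 i x hx)⟩
  · simp
  · rintro x y ⟨hx, hx'⟩ ⟨hy, hy'⟩
    exact ⟨by simp [hx, hy], fun i => by rw [map_add]; exact add_mem (hx' i) (hy' i)⟩

omit [CharZero K] in
lemma mem_bigJ (σ : R →ₐ[K] F) (δ : ι → Derivation K R R) (s : R) (h0 : σ s = 0)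
    (hs : ∀ i, δ i s ∈ bigJ σ δ) : s ∈ bigJ σ δ := by
  have key : ∀ u ∈ bigJ σ δ ⊔ Ideal.span {s},
      σ u = 0 ∧ ∀ i, δ i u ∈ bigJ σ δ ⊔ Ideal.span {s} := by
    intro u hu
    obtain ⟨y, hy, z, hz, rfl⟩ := Submodule.mem_sup.1 hu
    obtain ⟨c, rfl⟩ := Ideal.mem_span_singleton'.1 hz
    refine ⟨by simp [(bigJ_spec σ δ y hy).1, h0], fun i => ?_⟩
    rw [map_add, Derivation.leibniz, smul_eq_mul, smul_eq_mul]
    refine add_mem (Ideal.mem_sup_left ((bigJ_spec σ δ y hy).2 i)) (add_mem ?_ ?_)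
    · exact Ideal.mem_sup_left (Ideal.mul_mem_left _ _ (hs i))
    · exact Ideal.mem_sup_right (Ideal.mul_mem_right _ _ (Ideal.mem_span_singleton_self s))
  have : bigJ σ δ ⊔ Ideal.span {s} ≤ bigJ σ δ :=
    le_sSup (s := {I : Ideal R | (∀ u ∈ I, σ u = 0) ∧ ∀ i, ∀ u ∈ I, δ i u ∈ I})
      ⟨fun u hu => (key u hu).1, fun i u hu => (key u hu).2 i⟩
  exact this (Ideal.mem_sup_right (Ideal.mem_span_singleton_self s))

/-- elements of `O` sent into `J` by the derivations with index in `S` -/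
def invB (J : Ideal R) (δ : ι → Derivation K R R) (O : Subalgebra K R) (S : Set ι) :
    Subalgebra K R where
  carrier := {u | u ∈ O ∧ ∀ i ∈ S, δ i u ∈ J}
  mul_mem' := by
    rintro a b ⟨ha, ha'⟩ ⟨hb, hb'⟩
    refine ⟨mul_mem ha hb, fun i hi => ?_⟩
    rw [Derivation.leibniz, smul_eq_mul, smul_eq_mul]
    exact add_mem (J.mul_mem_left _ (hb' i hi)) (J.mul_mem_left _ (ha' i hi))
  add_mem' := by
    rintro a b ⟨ha, ha'⟩ ⟨hb, hb'⟩
    exact ⟨add_mem ha hb, fun i hi => by rw [map_add]; exact add_mem (ha' i hi) (hb' i hi)⟩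
  algebraMap_mem' := fun r => ⟨O.algebraMap_mem r, fun i _ => by simp⟩

omit [CharZero K] in
lemma mem_invB {J : Ideal R} {δ : ι → Derivation K R R} {O : Subalgebra K R} {S : Set ι} {u : R} :
    u ∈ invB J δ O S ↔ u ∈ O ∧ ∀ i ∈ S, δ i u ∈ J := Iff.rfl

/-- the Dixmier partial sums -/
noncomputable def dix (d : Derivation K R R) (s t b : R) : ℕ → R
  | 0 => b
  | k + 1 => s * dix d s t b k +
      ((-1) ^ (k + 1) / ((k + 1).factorial : K)) • (t ^ (k + 1) * (d : R → R)^[k + 1] b)

lemma dix_der (J : Ideal R) (d : Derivation K R R) (s t b : R) (hs : d s ∈ J) (ht : d t = s)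
    (k : ℕ) : d (dix d s t b k) -
      ((-1) ^ k / (k.factorial : K)) • (t ^ k * (d : R → R)^[k + 1] b) ∈ J := by
  induction k with
  | zero => simp [dix]
  | succ k ih =>
    have hk : ((k + 1 : ℕ) : K) ≠ 0 := Nat.cast_ne_zero.2 (Nat.succ_ne_zero k)
    have hf : (k.factorial : K) ≠ 0 := Nat.cast_ne_zero.2 (Nat.factorial_ne_zero k)
    have e : ((-1) ^ (k + 1) / ((k + 1).factorial : K)) * ((k + 1 : ℕ) : K) =
        -((-1) ^ k / (k.factorial : K)) := by
      rw [Nat.factorial_succ]; push_cast; push_cast at hk; field_simp; ring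
    have : d (dix d s t b (k + 1)) - ((-1) ^ (k + 1) / ((k + 1).factorial : K)) •
        (t ^ (k + 1) * (d : R → R)^[k + 1 + 1] b) =
        s * (d (dix d s t b k) -
          ((-1) ^ k / (k.factorial : K)) • (t ^ k * (d : R → R)^[k + 1] b)) +
          dix d s t b k * d s := by
      rw [dix, map_add, Derivation.leibniz, Derivation.map_smul, Derivation.leibniz,
        Derivation.leibniz_pow, ht, ← Function.iterate_succ_apply' (d : R → R) (k + 1) b]
      simp only [smul_eq_mul, Nat.add_sub_cancel, smul_add, Nat.succ_eq_add_one]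
      have e2 : ((-1) ^ (k + 1) / ((k + 1).factorial : K)) •
          ((d : R → R)^[k + 1] b * (k + 1) • (t ^ k * s)) =
          -(s * ((-1) ^ k / (k.factorial : K)) • (t ^ k * (d : R → R)^[k + 1] b)) := by
        rw [← Nat.cast_smul_eq_nsmul K, mul_smul_comm, smul_smul, e, mul_smul_comm, neg_smul]
        congr 2; ring
      rw [e2]; ring
    rw [this]
    exact add_mem (J.mul_mem_left _ ih) (J.mul_mem_left _ hs)

omit [CharZero K] in
lemma der_one (σ : R →ₐ[K] F) (w : R →ₗ[K] F)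
    (hw : ∀ a b, w (a * b) = σ a * w b + σ b * w a) : w 1 = 0 := by
  have := hw 1 1
  simp only [mul_one, map_one, one_mul] at this
  exact left_eq_add.mp this

omit [CharZero K] in
lemma der_pow (σ : R →ₐ[K] F) (w : R →ₗ[K] F)
    (hw : ∀ a b, w (a * b) = σ a * w b + σ b * w a) (t : R) (ht : w t = 0) (k : ℕ) :
    w (t ^ k) = 0 := by
  induction k with
  | zero => simpa using der_one σ w hw
  | succ k ih => rw [pow_succ, hw, ih, ht]; simp

theorem lemmaU [Fintype ι] [LinearOrder ι] (σ : R →ₐ[K] F) (δ : ι → Derivation K R R)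
    (Fil : ℕ → Set R) (h0 : ∀ u ∈ Fil 0, u = 0)
    (hs : ∀ m i, ∀ u ∈ Fil (m + 1), δ i u ∈ Fil m) (hex : ∀ u, ∃ m, u ∈ Fil m)
    (hbr : ∀ i l, ∀ I : Ideal R, ∀ u, (∀ k < i, δ k u ∈ I) → δ i (δ l u) - δ l (δ i u) ∈ I)
    (O : Subalgebra K R) (hO : ∀ i, ∀ u ∈ O, δ i u ∈ O) :
    ∃ B : Set R, (∀ u ∈ B, u ∈ O ∧ ∀ i, σ (δ i u) = 0) ∧
      ∀ v : R →ₗ[K] F, (∀ a b, v (a * b) = σ a * v b + σ b * v a) → (∀ u ∈ B, v u = 0) →
        ∃ c : ι → F, ∀ u ∈ O, v u = ∑ i, c i * σ (δ i u) := by
  classical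
  set J := bigJ σ δ with hJ
  refine ⟨invB J δ O Set.univ, fun u hu =>
    ⟨hu.1, fun i => (bigJ_spec σ δ _ (hu.2 i trivial)).1⟩, ?_⟩
  intro v hv hvB
  have stab : ∀ S : Set ι, IsLowerSet S → ∀ l, ∀ u ∈ invB J δ O S, δ l u ∈ invB J δ O S := by
    intro S hS l u hu
    refine ⟨hO l u hu.1, fun i hi => ?_⟩
    have h1 := hbr i l J u fun k hk => hu.2 k (hS hk.le hi)
    have h2 := (bigJ_spec σ δ _ (hu.2 i hi)).2 l
    simpa using add_mem h1 h2
  have main : ∀ (N : ℕ) (T : Finset ι), T.card = N → IsUpperSet (T : Set ι) →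
      ∃ c : ι → F, ∀ u ∈ invB J δ O (↑T)ᶜ, v u = ∑ i, c i * σ (δ i u) := by
    intro N
    induction N with
    | zero =>
      intro T hT _
      rw [Finset.card_eq_zero] at hT
      subst hT
      refine ⟨0, fun u hu => ?_⟩
      simp only [Pi.zero_apply, zero_mul, sum_const_zero]
      exact hvB u (by simpa using hu)
    | succ N ih =>
      intro T hT hU
      have hne : T.Nonempty := Finset.card_pos.1 (by omega)
      set j := T.min' hne with hj
      have hjT : j ∈ T := T.min'_mem hne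
      have hU' : IsUpperSet (↑(T.erase j) : Set ι) := by
        intro a b hab ha
        simp only [coe_erase, Set.mem_sdiff, mem_coe, Set.mem_singleton_iff] at ha ⊢
        refine ⟨hU hab ha.1, fun hb => ha.2 (le_antisymm (hb ▸ hab) (T.min'_le a ha.1))⟩
      obtain ⟨c, hc⟩ := ih (T.erase j) (by rw [Finset.card_erase_of_mem hjT]; omega) hU'
      set S : Set ι := (↑T)ᶜ with hS
      set S' : Set ι := (↑(T.erase j))ᶜ with hS'
      have hSl : IsLowerSet S := hU.compl
      have hmem : ∀ u, u ∈ invB J δ O S' ↔ u ∈ invB J δ O S ∧ δ j u ∈ J := by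
        intro u
        constructor
        · intro hu
          refine ⟨⟨hu.1, fun i hi => hu.2 i ?_⟩, hu.2 j (by simp [hS'])⟩
          simp only [hS, hS', coe_erase, Set.mem_compl_iff, Set.mem_sdiff, mem_coe] at hi ⊢
          tauto
        · rintro ⟨hu, hu'⟩
          refine ⟨hu.1, fun i hi => ?_⟩
          by_cases hij : i = j
          · exact hij ▸ hu'
          · refine hu.2 i ?_
            simp only [hS, hS', coe_erase, Set.mem_compl_iff, Set.mem_sdiff, mem_coe,
              Set.mem_singleton_iff] at hi ⊢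
            tauto
      have hlt : ∀ k < j, k ∈ S := fun k hk hkT => absurd (T.min'_le k hkT) (not_le.2 hk)
      by_cases hall : ∃ t ∈ invB J δ O S, δ j t ∉ J ∧ ∀ l, δ l t ∈ invB J δ O S'
      · obtain ⟨t, htS, htJ, htl⟩ := hall
        set s := δ j t with hsdef
        have hsJ : ∀ l, δ l s ∈ J := by
          intro l
          have h1 := hbr j l J t fun k hk => htS.2 k (hlt k hk)
          have h2 := ((hmem _).1 (htl l)).2
          simpa using sub_mem h2 h1
        have hs0 : σ s ≠ 0 := fun h => htJ (mem_bigJ σ δ s h hsJ)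
        set e : F := (v t - ∑ i, c i * σ (δ i t)) / σ s with he
        set c' : ι → F := fun i => c i + if i = j then e else 0 with hc'
        have hsum : ∀ u, ∑ i, c' i * σ (δ i u) = ∑ i, c i * σ (δ i u) + e * σ (δ j u) := by
          intro u
          simp [hc', add_mul, Finset.sum_add_distrib]
        let w : R →ₗ[K] F :=
          { toFun := fun u => v u - ∑ i, c' i * σ (δ i u)
            map_add' := fun a b => by
              simp only [map_add, mul_add, Finset.sum_add_distrib]; ring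
            map_smul' := fun r a => by
              simp only [map_smul, Derivation.map_smul, RingHom.id_apply, smul_sub,
                Finset.smul_sum, mul_smul_comm] }
        have hwd : ∀ u, w u = v u - ∑ i, c' i * σ (δ i u) := fun u => rfl
        have hw : ∀ a b, w (a * b) = σ a * w b + σ b * w a := by
          intro a b
          simp only [hwd, hv, Derivation.leibniz, smul_eq_mul, map_add, map_mul, mul_add,
            Finset.sum_add_distrib, mul_sub, Finset.mul_sum]
          have e1 : ∀ i, c' i * (σ a * σ (δ i b)) = σ a * (c' i * σ (δ i b)) := fun i => by ring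
          have e2 : ∀ i, c' i * (σ b * σ (δ i a)) = σ b * (c' i * σ (δ i a)) := fun i => by ring
          simp only [e1, e2]; ring
        have hwS' : ∀ u ∈ invB J δ O S', w u = 0 := by
          intro u hu
          rw [hwd, hsum, hc u hu, (bigJ_spec σ δ _ ((hmem u).1 hu).2).1]; simp
        have hwt : w t = 0 := by
          rw [hwd, hsum, he, ← hsdef]; field_simp; ring
        have hws : w s = 0 := hwS' s (htl j)
        have hsS : s ∈ invB J δ O S := stab S hSl j t htS
        have hit : ∀ b ∈ invB J δ O S, ∀ k, (δ j : R → R)^[k] b ∈ invB J δ O S := by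
          intro b hb k
          induction k with
          | zero => exact hb
          | succ k ih => rw [Function.iterate_succ_apply']; exact stab S hSl j _ ih
        have hnil : ∀ m, ∀ b ∈ Fil m, (δ j : R → R)^[m] b = 0 := by
          intro m
          induction m with
          | zero => exact h0
          | succ m ih => intro b hb; exact ih _ (hs m j b hb)
        have key : ∀ m, ∀ b ∈ Fil m, b ∈ invB J δ O S → ∀ k, w ((δ j : R → R)^[k] b) = 0 := by
          intro m
          induction m with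
          | zero =>
            intro b hb _ k
            rw [h0 b hb, Function.iterate_fixed (map_zero _)]; simp
          | succ m ih =>
            intro b hb hbS k
            have hpos : ∀ k, w ((δ j : R → R)^[k + 1] b) = 0 := fun k =>
              ih _ (hs m j b hb) (stab S hSl j b hbS) k
            rcases k with _ | k
            · have h1 : ∀ k, dix (δ j) s t b k ∈ invB J δ O S ∧
                  w (dix (δ j) s t b k) = σ s ^ k * w b := by
                intro k
                induction k with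
                | zero => simpa [dix] using hbS
                | succ k ih =>
                  refine ⟨?_, ?_⟩
                  · exact add_mem (mul_mem hsS ih.1) (Subalgebra.smul_mem _
                      (mul_mem (pow_mem htS _) (hit b hbS _)) _)
                  · rw [dix, map_add, map_smul, hw, hw, hpos, der_pow σ w hw t hwt, hws, ih.2]
                    simp only [mul_zero, add_zero, smul_zero]; ring
              have h2 := dix_der J (δ j) s t b (hsJ j) rfl m
              rw [hnil _ b hb] at h2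
              simp only [mul_zero, smul_zero, sub_zero] at h2
              have h3 := hwS' _ ((hmem _).2 ⟨(h1 m).1, h2⟩)
              rw [(h1 m).2] at h3
              simpa [hs0] using h3
            · exact hpos k
        refine ⟨c', fun u hu => ?_⟩
        obtain ⟨m, hm⟩ := hex u
        have := key m u hm hu 0
        rw [Function.iterate_zero_apply, hwd] at this
        exact sub_eq_zero.1 this
      · push Not at hall
        have : ∀ m, ∀ u ∈ Fil m, u ∈ invB J δ O S → u ∈ invB J δ O S' := by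
          intro m
          induction m with
          | zero => intro u hu _; rw [h0 u hu]; exact zero_mem _
          | succ m ih =>
            intro u hu huS
            by_contra hcon
            obtain ⟨l, hl⟩ := hall u huS fun h => hcon ((hmem u).2 ⟨huS, h⟩)
            exact hl (ih _ (hs m l u hu) (stab S hSl l u huS))
        refine ⟨c, fun u hu => ?_⟩
        obtain ⟨m, hm⟩ := hex u
        exact hc u (this m u hm hu)
  obtain ⟨c, hc⟩ := main _ Finset.univ rfl (by simpa using isUpperSet_univ)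
  exact ⟨c, fun u hu => hc u ⟨hu, by simp⟩⟩

end U

section Fil

open MvPolynomial

variable {K τ : Type*} [Field K]

/-- span of the monomials of weight `< m` -/
noncomputable def fil (K : Type*) [Field K] (w : τ → ℕ) (m : ℕ) : Submodule K (MvPolynomial τ K) :=
  Submodule.span K {p | ∃ l : List τ, (l.map w).sum < m ∧ p = (l.map X).prod}

lemma fil_mono (w : τ → ℕ) {m m' : ℕ} (h : m ≤ m') : fil K w m ≤ fil K w m' :=
  Submodule.span_mono (by rintro p ⟨l, hl, rfl⟩; exact ⟨l, by omega, rfl⟩)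

lemma fil_zero (w : τ → ℕ) (u : MvPolynomial τ K) (hu : u ∈ fil K w 0) : u = 0 := by
  have : fil K w 0 = ⊥ := by
    rw [fil, Submodule.span_eq_bot]
    rintro p ⟨l, hl, -⟩; omega
  simpa [this] using hu

lemma fil_mul_X (w : τ → ℕ) (m : ℕ) (j : τ) (u : MvPolynomial τ K) (hu : u ∈ fil K w m) :
    X j * u ∈ fil K w (m + w j) := by
  induction hu using Submodule.span_induction with
  | mem p hp =>
    obtain ⟨l, hl, rfl⟩ := hp
    exact Submodule.subset_span ⟨j :: l, by simp; omega, by simp⟩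
  | zero => simp
  | add a b _ _ ha hb => rw [mul_add]; exact add_mem ha hb
  | smul r a _ ha => rw [mul_smul_comm]; exact Submodule.smul_mem _ _ ha

lemma fil_ex (w : τ → ℕ) (u : MvPolynomial τ K) : ∃ m, u ∈ fil K w m := by
  induction u using MvPolynomial.induction_on with
  | C a =>
    refine ⟨1, ?_⟩
    have : (C a : MvPolynomial τ K) = a • (1 : MvPolynomial τ K) := by simp [smul_eq_C_mul]
    rw [this]
    exact Submodule.smul_mem _ _ (Submodule.subset_span ⟨[], by simp, by simp⟩)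
  | add p q hp hq =>
    obtain ⟨a, ha⟩ := hp
    obtain ⟨b, hb⟩ := hq
    exact ⟨max a b, add_mem (fil_mono w (le_max_left _ _) ha) (fil_mono w (le_max_right _ _) hb)⟩
  | mul_X p j hp =>
    obtain ⟨a, ha⟩ := hp
    exact ⟨a + w j, by rw [mul_comm]; exact fil_mul_X w a j p ha⟩

lemma fil_der (w : τ → ℕ) (d : Derivation K (MvPolynomial τ K) (MvPolynomial τ K))
    (hd : ∀ j, d (X j) ∈ Submodule.span K {p | ∃ k, w k < w j ∧ p = X k})
    (m : ℕ) (u : MvPolynomial τ K) (hu : u ∈ fil K w (m + 1)) : d u ∈ fil K w m := by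
  have key : ∀ l : List τ, d (l.map X).prod ∈ fil K w (l.map w).sum := by
    intro l
    induction l with
    | nil => simp
    | cons j l ih =>
      simp only [List.map_cons, List.prod_cons, List.sum_cons, Derivation.leibniz, smul_eq_mul]
      refine add_mem ?_ ?_
      · rw [add_comm]; exact fil_mul_X w _ j _ ih
      · have := hd j
        generalize d (X j) = q at this
        induction this using Submodule.span_induction with
        | mem p hp =>
          obtain ⟨k, hk, rfl⟩ := hp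
          exact Submodule.subset_span ⟨k :: l, by simp; omega, by simp [mul_comm]⟩
        | zero => simp
        | add a b _ _ ha hb => rw [mul_add]; exact add_mem ha hb
        | smul r a _ ha => rw [mul_smul_comm]; exact Submodule.smul_mem _ _ ha
  induction hu using Submodule.span_induction with
  | mem p hp =>
    obtain ⟨l, hl, rfl⟩ := hp
    exact fil_mono w (by omega) (key l)
  | zero => simp
  | add a b _ _ ha hb => rw [map_add]; exact add_mem ha hb
  | smul r a _ ha => rw [Derivation.map_smul]; exact Submodule.smul_mem _ _ ha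

/-- chain rule for a `ψ`-derivation -/
lemma chain [Fintype τ] {S : Type*} [CommRing S] [Algebra K S] (ψ : MvPolynomial τ K →ₐ[K] S)
    (W : MvPolynomial τ K →ₗ[K] S) (hW : ∀ a b, W (a * b) = ψ a * W b + ψ b * W a)
    (f : MvPolynomial τ K) : W f = ∑ i, W (X i) * ψ (pderiv i f) := by
  classical
  have h1 : W 1 = 0 := by
    have := hW 1 1
    simp only [mul_one, map_one, one_mul] at this
    exact left_eq_add.mp this
  induction f using MvPolynomial.induction_on with
  | C a =>
    have : (C a : MvPolynomial τ K) = a • (1 : MvPolynomial τ K) := by simp [smul_eq_C_mul]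
    rw [this, map_smul, h1]; simp
  | add p q hp hq => simp [hp, hq, mul_add, Finset.sum_add_distrib]
  | mul_X p j hp =>
    rw [hW, hp]
    simp only [Derivation.leibniz, smul_eq_mul, map_add, map_mul, mul_add,
      Finset.sum_add_distrib, pderiv_X, Finset.mul_sum]
    congr 1
    · rw [Finset.sum_eq_single j]
      · simp [mul_comm]
      · intro i _ hi; simp [hi.symm]
      · simp
    · exact Finset.sum_congr rfl fun i _ => by ring

end Fil

end Pool.Agent.MP_d920b6_mp.Nil

end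

section

namespace Pool.Agent.MP_d920b6_mp.Nil

open Matrix Module

section Basic

variable {F : Type*} [Field F] {n : Type*} [Fintype n]

/-- annihilator for the dot product -/
def ann (W : Set (n → F)) : Submodule F (n → F) where
  carrier := {v | ∀ g ∈ W, v ⬝ᵥ g = 0}
  add_mem' := fun ha hb g hg => by rw [add_dotProduct, ha g hg, hb g hg, add_zero]
  zero_mem' := fun g _ => zero_dotProduct g
  smul_mem' := fun c v hv g hg => by rw [smul_dotProduct, hv g hg, smul_zero]

lemma mem_ann {W : Set (n → F)} {v : n → F} : v ∈ ann W ↔ ∀ g ∈ W, v ⬝ᵥ g = 0 := Iff.rfl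

lemma mem_of_ann (W : Submodule F (n → F)) (ξ : n → F)
    (h : ∀ v, (∀ g ∈ W, v ⬝ᵥ g = 0) → v ⬝ᵥ ξ = 0) : ξ ∈ W := by
  classical
  by_contra hx
  obtain ⟨f, hf, hW⟩ := Submodule.exists_dual_map_eq_bot_of_notMem hx inferInstance
  have hv : ∀ g, (fun i => f (Pi.single i 1)) ⬝ᵥ g = f g := by
    intro g
    conv_rhs => rw [pi_eq_sum_univ' g]
    simp [dotProduct, map_sum, mul_comm]
  refine hf ?_
  rw [← hv]
  refine h _ fun g hg => ?_
  rw [hv]
  have : f g ∈ W.map f := Submodule.mem_map_of_mem hg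
  rw [hW] at this
  exact (Submodule.mem_bot F).1 this

lemma finrank_ann (W : Submodule F (n → F)) :
    finrank F W + finrank F (ann (W : Set (n → F))) = Fintype.card n := by
  classical
  let B : LinearMap.BilinForm F (n → F) := dotProductBilin F F
  have h := LinearMap.BilinForm.finrank_add_finrank_orthogonal' (B := B) W
  have hk : B.ker = ⊥ := by
    rw [eq_bot_iff]
    intro v hv
    have hv' : ∀ g, v ⬝ᵥ g = 0 := fun g => by
      have := LinearMap.congr_fun (LinearMap.mem_ker.1 hv) g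
      simpa [B] using this
    ext i
    simpa using hv' (Pi.single i 1)
  have he : B.orthogonal W = ann (W : Set (n → F)) := by
    ext v
    rw [LinearMap.BilinForm.mem_orthogonal_iff, mem_ann]
    refine forall_congr' fun g => forall_congr' fun _ => ?_
    simp [B, dotProduct_comm]
  rw [hk, he, inf_bot_eq, finrank_bot, add_zero] at h
  simpa using h

lemma exists_indep {W ι : Type*} [AddCommGroup W] [Module F W] [FiniteDimensional F W]
    (v : ι → W) :
    ∃ g : Fin (finrank F (Submodule.span F (Set.range v))) → ι, LinearIndependent F (v ∘ g) ∧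
      Submodule.span F (Set.range (v ∘ g)) = Submodule.span F (Set.range v) := by
  obtain ⟨κ, a, -, hsp, hli⟩ := exists_linearIndependent' F v
  have : Finite κ := hli.finite
  have := Fintype.ofFinite κ
  have hc : Fintype.card κ = finrank F (Submodule.span F (Set.range v)) := by
    rw [← hsp]; exact (finrank_span_eq_card hli).symm
  let e := (Fintype.equivFinOfCardEq hc).symm
  refine ⟨a ∘ e, hli.comp e e.injective, ?_⟩
  rw [← Function.comp_assoc, e.surjective.range_comp, hsp]

lemma exists_minor {s : ℕ} (V : Fin s → n → F) (h : LinearIndependent F V) :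
    ∃ g : Fin s → n, (Matrix.of fun i j => V i (g j)).det ≠ 0 := by
  classical
  have h1 : (Matrix.of V).rank = s := by
    simpa using LinearIndependent.rank_matrix (M := Matrix.of V) h
  rw [rank_eq_finrank_span_cols] at h1
  obtain ⟨g, hg, -⟩ := exists_indep (F := F) (Matrix.of V).col
  let e : Fin s → Fin (finrank F (Submodule.span F (Set.range (Matrix.of V).col))) :=
    Fin.cast h1.symm
  refine ⟨g ∘ e, ?_⟩
  have h2 : LinearIndependent F (Matrix.of fun i j => V i ((g ∘ e) j)).col :=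
    hg.comp e (Fin.cast_injective _)
  rw [linearIndependent_cols_iff_isUnit, isUnit_iff_isUnit_det] at h2
  exact h2.ne_zero

lemma rank_map_le {K τ m : Type*} [Field K] [Infinite K] [Fintype m]
    (M : Matrix m n (MvPolynomial τ K)) (ψ : MvPolynomial τ K →+* F) (ρ : ℕ)
    (h : ∀ z : τ → K, (M.map (MvPolynomial.eval z)).rank ≤ ρ) : (M.map ψ).rank ≤ ρ := by
  classical
  by_contra hc
  rw [rank_eq_finrank_span_row] at hc
  obtain ⟨g, hg, -⟩ := exists_indep (F := F) (M.map ψ).row
  let e : Fin (ρ + 1) → Fin (finrank F (Submodule.span F (Set.range (M.map ψ).row))) :=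
    Fin.castLE (by omega)
  obtain ⟨c, hc'⟩ := exists_minor _ (hg.comp e (Fin.castLE_injective _))
  have h1 : (M.submatrix (g ∘ e) c).det ≠ 0 := by
    intro h0
    apply hc'
    have := RingHom.map_det ψ (M.submatrix (g ∘ e) c)
    rw [h0, map_zero] at this
    rw [this]; rfl
  obtain ⟨z, hz⟩ : ∃ z : τ → K, MvPolynomial.eval z (M.submatrix (g ∘ e) c).det ≠ 0 := by
    by_contra hn
    push Not at hn
    exact h1 (MvPolynomial.funext (by simpa using hn))
  rw [RingHom.map_det] at hz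
  have h2 := rank_of_det_ne_zero hz
  have h3 := rank_submatrix_le (M.map (MvPolynomial.eval z)) (g ∘ e) c
  have h4 := h z
  have : ((MvPolynomial.eval z).mapMatrix (M.submatrix (g ∘ e) c)) =
      (M.map (MvPolynomial.eval z)).submatrix (g ∘ e) c := rfl
  rw [this] at h2
  simp at h2
  omega

end Basic

section PID

open Polynomial

variable {k : Type*} [Field k]

lemma pid_dual {m : Type*} [Fintype m] (N : Submodule k[X] (m → k[X])) (w : m → k[X])
    (h : ∀ (u : m → k[X]) (q : k[X]), q.Monic → (∀ y ∈ N, q ∣ u ⬝ᵥ y) → q ∣ u ⬝ᵥ w) :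
    w ∈ N := by
  classical
  obtain ⟨s, snf⟩ := N.smithNormalForm (Pi.basisFun k[X] m)
  have hv : ∀ (f : (m → k[X]) →ₗ[k[X]] k[X]) g, (fun i => f (Pi.single i 1)) ⬝ᵥ g = f g := by
    intro f g
    conv_rhs => rw [pi_eq_sum_univ' g]
    simp [dotProduct, map_sum, mul_comm]
  have h' : ∀ (j : m) (q : k[X]), q.Monic → (∀ y ∈ N, q ∣ snf.bM.repr y j) →
      q ∣ snf.bM.repr w j := by
    intro j q hq hy
    have := h (fun i => snf.bM.coord j (Pi.single i 1)) q hq (fun y hy' => by
      rw [hv]; exact hy y hy')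
    rwa [hv] at this
  rw [← snf.bM.sum_repr w]
  refine Submodule.sum_mem _ fun j _ => ?_
  by_cases hj : j ∈ Set.range snf.f
  · obtain ⟨i, rfl⟩ := hj
    have ha : snf.a i ≠ 0 := by
      intro h0
      have := snf.snf i
      rw [h0, zero_smul] at this
      exact snf.bN.ne_zero i (Subtype.ext this)
    have hd : snf.a i ∣ snf.bM.repr w (snf.f i) := by
      refine (normalize_dvd_iff).1 (h' _ _ (monic_normalize ha) fun y hy => ?_)
      rw [normalize_dvd_iff]
      have := snf.repr_apply_embedding_eq_repr_smul ⟨y, hy⟩ (i := i)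
      simp only [map_smul, Finsupp.smul_apply, smul_eq_mul] at this
      exact ⟨_, this⟩
    obtain ⟨c, hc⟩ := hd
    rw [hc, mul_comm, mul_smul, ← snf.snf]
    exact N.smul_mem _ (snf.bN i).2
  · have h0 : snf.bM.repr w j = 0 := by
      refine eq_zero_of_dvd_of_natDegree_lt (p := X ^ ((snf.bM.repr w j).natDegree + 1))
        (h' j _ (monic_X_pow _) fun y hy => ?_) (by simp)
      rw [snf.repr_eq_zero_of_notMem_range ⟨y, hy⟩ hj]
      exact dvd_zero _
    rw [h0, zero_smul]
    exact zero_mem _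

end PID

end Pool.Agent.MP_d920b6_mp.Nil

end

section

namespace Pool.Agent.MP_d920b6_mp.Nil

open Matrix Module Polynomial

variable {k : Type*} [Field k] {n : Type*} [Fintype n]

noncomputable def pen (P0 P1 : Matrix n n k) : Matrix n n k[X] :=
  P0.map C + (X : k[X]) • P1.map C

noncomputable def cv (v : n → k) : n → k[X] := fun i => C (v i)

def cf (u : n → k[X]) (d : ℕ) : n → k := fun i => (u i).coeff d

lemma skew_dot {R : Type*} [CommRing R] {P : Matrix n n R} (h : Pᵀ = -P) (a b : n → R) :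
    a ⬝ᵥ P *ᵥ b = -(b ⬝ᵥ P *ᵥ a) := by
  rw [dotProduct_mulVec, ← mulVec_transpose, h, neg_mulVec, neg_dotProduct, dotProduct_comm]

omit [Fintype n] in
lemma pen_skew {P0 P1 : Matrix n n k} (h0 : P0ᵀ = -P0) (h1 : P1ᵀ = -P1) :
    (pen P0 P1)ᵀ = -pen P0 P1 := by
  ext1 i j
  have e0 : P0 j i = -P0 i j := congrFun (congrFun h0 i) j
  have e1 : P1 j i = -P1 i j := congrFun (congrFun h1 i) j
  simp [pen, e0, e1]; ring

lemma coeff_cv_dot (w : n → k) (u : n → k[X]) (d : ℕ) : (cv w ⬝ᵥ u).coeff d = w ⬝ᵥ cf u d := by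
  simp [dotProduct, cv, cf]

lemma cf_pen (P0 P1 : Matrix n n k) (u : n → k[X]) (d : ℕ) :
    cf (pen P0 P1 *ᵥ u) (d + 1) = P0 *ᵥ cf u (d + 1) + P1 *ᵥ cf u d := by
  ext i
  simp [cf, pen, mulVec, dotProduct, add_mul, Finset.sum_add_distrib, mul_assoc, coeff_X_mul]

lemma cv_pen (P0 P1 : Matrix n n k) (l : n → k) (g : n → k[X]) :
    cv l ⬝ᵥ pen P0 P1 *ᵥ g = cv (l ᵥ* P0) ⬝ᵥ g + X * (cv (l ᵥ* P1) ⬝ᵥ g) := by
  have e : ∀ P : Matrix n n k, cv l ᵥ* P.map C = cv (l ᵥ* P) := by
    intro P; ext1 i; simp [cv, vecMul, dotProduct]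
  rw [pen, add_mulVec, dotProduct_add, smul_mulVec, dotProduct_smul, dotProduct_mulVec,
    dotProduct_mulVec, e, e, smul_eq_mul]

/-- the space `E` -/
noncomputable def bigE (P0 P1 : Matrix n n k) (Λ : Set (n → k[X])) : Submodule k (n → k) where
  carrier := {v | ∃ ξ : n → k[X], ∀ g ∈ Λ, cv v ⬝ᵥ g = ξ ⬝ᵥ pen P0 P1 *ᵥ g}
  add_mem' := by
    rintro a b ⟨ξ, ha⟩ ⟨ξ', hb⟩
    refine ⟨ξ + ξ', fun g hg => ?_⟩
    have : cv (a + b) = cv a + cv b := by ext1 i; simp [cv]
    rw [this, add_dotProduct, add_dotProduct, ha g hg, hb g hg]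
  zero_mem' := ⟨0, fun g _ => by
    have : cv (0 : n → k) = 0 := by ext1 i; simp [cv]
    simp [this]⟩
  smul_mem' := by
    rintro c a ⟨ξ, ha⟩
    refine ⟨(C c : k[X]) • ξ, fun g hg => ?_⟩
    have : cv (c • a) = (C c : k[X]) • cv a := by ext1 i; simp [cv]
    rw [this, smul_dotProduct, smul_dotProduct, ha g hg]

lemma part2_key {P0 P1 : Matrix n n k} (h0 : P0ᵀ = -P0) (h1 : P1ᵀ = -P1)
    (Λ : Submodule k[X] (n → k[X])) (hiso : ∀ g ∈ Λ, ∀ g' ∈ Λ, g ⬝ᵥ pen P0 P1 *ᵥ g' = 0)
    (l : n → k) (hl : l ∈ ann (bigE P0 P1 Λ : Set (n → k))) (q : k[X]) (hq : q.Monic) (D : ℕ)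
    (hD : q.natDegree = D + 1) (ζ : n → k[X]) (hζ : ζ ∈ Λ)
    (hd : ∀ ξ, q ∣ ξ ⬝ᵥ pen P0 P1 *ᵥ ζ) :
    (cv (l ᵥ* P1) ⬝ᵥ fun i => ζ i %ₘ q).coeff D = 0 := by
  classical
  set ρ : n → k[X] := fun i => ζ i %ₘ q with hρ
  set ξp : n → k[X] := fun i => ζ i /ₘ q with hξp
  have hsplit : ζ = ρ + q • ξp := by
    ext1 i; simp [hρ, hξp, modByMonic_add_div]
  have hρ0 : ∀ d, D < d → cf ρ d = 0 := by
    intro d hd
    ext i
    refine coeff_eq_zero_of_degree_lt ((degree_modByMonic_lt _ hq).trans_le ?_)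
    rw [degree_eq_natDegree hq.ne_zero, hD]
    exact_mod_cast hd
  set v := P1 *ᵥ cf ρ D with hv
  have hpρ : pen P0 P1 *ᵥ ρ = q • cv v := by
    ext1 j
    have h2 : q ∣ (pen P0 P1 *ᵥ ρ) j := by
      have h3 := hd (Pi.single j 1)
      rw [single_one_dotProduct, hsplit, mulVec_add, mulVec_smul] at h3
      exact (dvd_add_left (Dvd.intro _ rfl)).1 h3
    have h4 : ((pen P0 P1 *ᵥ ρ) j).natDegree ≤ q.natDegree := by
      rw [hD, natDegree_le_iff_coeff_eq_zero]
      intro N hN
      obtain ⟨d, rfl⟩ : ∃ d, N = d + 1 := ⟨N - 1, by omega⟩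
      have := congrFun (cf_pen P0 P1 ρ d) j
      rw [hρ0 d (by omega), hρ0 (d + 1) (by omega)] at this
      simpa [cf] using this
    have h5 := eq_leadingCoeff_mul_of_monic_of_dvd_of_natDegree_le hq h2 h4
    have h6 := congrFun (cf_pen P0 P1 ρ D) j
    rw [hρ0 (D + 1) (by omega), mulVec_zero, zero_add, ← hv] at h6
    have h7 : ((pen P0 P1 *ᵥ ρ) j).coeff (D + 1) = v j := h6
    rw [h5, coeff_C_mul, ← hD, hq.coeff_natDegree, mul_one] at h7
    rw [h5, h7]; simp [cv, mul_comm]
  have hvE : v ∈ bigE P0 P1 Λ := by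
    refine ⟨ξp, fun g hg => mul_left_cancel₀ hq.ne_zero ?_⟩
    have e1 := hiso g hg ζ hζ
    rw [hsplit, mulVec_add, mulVec_smul, dotProduct_add, hpρ, dotProduct_smul, dotProduct_smul,
      skew_dot (pen_skew h0 h1) g ξp, dotProduct_comm g] at e1
    simp only [smul_eq_mul] at e1
    linear_combination e1
  rw [coeff_cv_dot, ← dotProduct_mulVec]
  exact hl v hvE

lemma part2 {P0 P1 : Matrix n n k} (h0 : P0ᵀ = -P0) (h1 : P1ᵀ = -P1)
    (Λ : Submodule k[X] (n → k[X])) (hiso : ∀ g ∈ Λ, ∀ g' ∈ Λ, g ⬝ᵥ pen P0 P1 *ᵥ g' = 0)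
    (l : n → k) (hl : l ∈ ann (bigE P0 P1 Λ : Set (n → k))) : l ᵥ* P1 ∈ bigE P0 P1 Λ := by
  classical
  obtain ⟨s, hs⟩ := IsNoetherian.noetherian Λ
  let T : (n → k[X]) →ₗ[k[X]] (s → k[X]) :=
    { toFun := fun ξ i => ξ ⬝ᵥ pen P0 P1 *ᵥ i.1
      map_add' := fun a b => by ext1 i; simp
      map_smul' := fun c a => by ext1 i; simp }
  have key : (fun i : s => cv (l ᵥ* P1) ⬝ᵥ i.1) ∈ LinearMap.range T := by
    refine pid_dual _ _ fun u q hq hu => ?_
    set ζ : n → k[X] := ∑ i : s, u i • i.1 with hζ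
    have hζΛ : ζ ∈ Λ := Submodule.sum_mem _ fun i _ =>
      Λ.smul_mem _ (hs ▸ Submodule.subset_span i.2)
    have hdot : ∀ (w : n → k[X]), (u ⬝ᵥ fun i : s => w ⬝ᵥ i.1) = w ⬝ᵥ ζ := by
      intro w
      rw [hζ, dotProduct_sum]
      simp only [dotProduct_smul, smul_eq_mul]
      rfl
    have hd : ∀ ξ, q ∣ ξ ⬝ᵥ pen P0 P1 *ᵥ ζ := by
      intro ξ
      have := hu (T ξ) ⟨ξ, rfl⟩
      rw [dotProduct_mulVec, ← hdot]
      convert this using 2
      ext1 i
      simp [T, dotProduct_mulVec]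
    rw [hdot]
    set γ := cv (l ᵥ* P1) ⬝ᵥ ζ with hγ
    rcases Nat.eq_zero_or_pos q.natDegree with hD | hD
    · rw [hq.natDegree_eq_zero.1 hD]; exact one_dvd _
    obtain ⟨D, hD⟩ : ∃ D, q.natDegree = D + 1 := ⟨q.natDegree - 1, by omega⟩
    rw [← modByMonic_eq_zero_iff_dvd hq]
    by_contra hg
    set g := γ %ₘ q with hgdef
    have hgd : g.natDegree < D + 1 := by
      rw [← hD]; exact natDegree_lt_natDegree hg (degree_modByMonic_lt _ hq)
    set e := D - g.natDegree with he
    have h2 := part2_key h0 h1 Λ hiso l hl q hq D hD ((X ^ e : k[X]) • ζ) (Λ.smul_mem _ hζΛ)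
      (fun ξ => by rw [mulVec_smul, dotProduct_smul]; exact Dvd.dvd.mul_left (hd ξ) _)
    set ρ : n → k[X] := fun i => ((X ^ e : k[X]) • ζ) i %ₘ q with hρ
    have hsplit : (X ^ e : k[X]) • ζ = ρ + q • fun i => ((X ^ e : k[X]) • ζ) i /ₘ q := by
      ext1 i; simp [hρ, modByMonic_add_div]
    have h3 : q ∣ cv (l ᵥ* P1) ⬝ᵥ ρ - X ^ e * g := by
      have e1 := congrArg (fun z => cv (l ᵥ* P1) ⬝ᵥ z) hsplit
      simp only [dotProduct_add, dotProduct_smul, smul_eq_mul] at e1
      have e2 := modByMonic_add_div γ q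
      refine ⟨X ^ e * (γ /ₘ q) - cv (l ᵥ* P1) ⬝ᵥ fun i => ((X ^ e : k[X]) • ζ) i /ₘ q, ?_⟩
      rw [← hγ] at e1
      linear_combination -e1 - X ^ e * e2
    have h4 : (cv (l ᵥ* P1) ⬝ᵥ ρ - X ^ e * g).natDegree < q.natDegree := by
      rw [hD, Nat.lt_succ_iff, natDegree_le_iff_coeff_eq_zero]
      intro N hN
      have e1 : cf ρ N = 0 := by
        ext i
        refine coeff_eq_zero_of_degree_lt ((degree_modByMonic_lt _ hq).trans_le ?_)
        rw [degree_eq_natDegree hq.ne_zero, hD]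
        exact_mod_cast hN
      rw [coeff_sub, coeff_cv_dot, e1, dotProduct_zero, zero_sub, neg_eq_zero]
      refine coeff_eq_zero_of_natDegree_lt (natDegree_mul_le.trans_lt ?_)
      rw [natDegree_X_pow]; omega
    have h5 := eq_zero_of_dvd_of_natDegree_lt h3 h4
    rw [sub_eq_zero] at h5
    rw [h5, show D = g.natDegree + e by omega, coeff_X_pow_mul] at h2
    exact hg (leadingCoeff_eq_zero.1 h2)
  obtain ⟨ξ, hξ⟩ := key
  refine ⟨ξ, fun g hg => ?_⟩
  have hg' : g ∈ Submodule.span k[X] (s : Set (n → k[X])) := hs ▸ hg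
  clear hg
  induction hg' using Submodule.span_induction with
  | mem x hx => exact (congrFun hξ ⟨x, hx⟩).symm
  | zero => simp
  | add a b _ _ ha hb => rw [dotProduct_add, mulVec_add, dotProduct_add, ha, hb]
  | smul c a _ ha => rw [dotProduct_smul, mulVec_smul, dotProduct_smul, ha]

theorem biIso {P0 P1 : Matrix n n k} (h0 : P0ᵀ = -P0) (h1 : P1ᵀ = -P1)
    (Λ : Submodule k[X] (n → k[X])) (hiso : ∀ g ∈ Λ, ∀ g' ∈ Λ, g ⬝ᵥ pen P0 P1 *ᵥ g' = 0)
    (l l' : n → k) (hl : l ∈ ann (bigE P0 P1 Λ : Set (n → k)))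
    (hl' : l' ∈ ann (bigE P0 P1 Λ : Set (n → k))) :
    l ⬝ᵥ P0 *ᵥ l' = 0 ∧ l ⬝ᵥ P1 *ᵥ l' = 0 := by
  have h2 := part2 h0 h1 Λ hiso l hl
  have h3 : l ᵥ* P0 ∈ bigE P0 P1 Λ := by
    obtain ⟨ξ, hξ⟩ := h2
    refine ⟨cv l - (X : k[X]) • ξ, fun g hg => ?_⟩
    rw [sub_dotProduct, cv_pen, smul_dotProduct, ← hξ g hg, smul_eq_mul]; ring
  exact ⟨by rw [dotProduct_mulVec, dotProduct_comm]; exact hl' _ h3,
    by rw [dotProduct_mulVec, dotProduct_comm]; exact hl' _ h2⟩

/-- the vector with entries `w i` at the places `c i` -/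
def embc [DecidableEq n] {ρ : ℕ} (c : Fin ρ → n) {R : Type*} [CommRing R] (w : Fin ρ → R) :
    n → R := ∑ i, w i • (Pi.single (c i) (1 : R) : n → R)

lemma reg_step [DecidableEq n] {P0 P1 : Matrix n n k} (h1 : P1ᵀ = -P1)
    (hreg : ((pen P0 P1).map (algebraMap k[X] (FractionRing k[X]))).rank ≤ P1.rank)
    (v : n → k) (q1 : k[X]) (hq1 : q1 ≠ 0) (u1 : n → k[X]) (h : q1 • cv v = pen P0 P1 *ᵥ u1) :
    ∃ (q : k[X]) (u : n → k[X]) (D : ℕ), q ≠ 0 ∧ q.natDegree = D + 1 ∧
      q • cv v = pen P0 P1 *ᵥ u ∧ ∀ d, D < d → cf u d = 0 := by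
  classical
  obtain ⟨ρ, hrk, c, hc, hsp⟩ : ∃ ρ, P1.rank = ρ ∧ ∃ c : Fin ρ → n,
      LinearIndependent k (P1.col ∘ c) ∧ Submodule.span k (Set.range (P1.col ∘ c)) =
        Submodule.span k (Set.range P1.col) :=
    ⟨_, rank_eq_finrank_span_cols P1, exists_indep (F := k) P1.col⟩
  have hnd : ∀ t : Fin ρ → k, (∀ j, (P1 *ᵥ embc c t) (c j) = 0) → t = 0 := by
    intro t ht
    have e1 : ∀ z ∈ Submodule.span k (Set.range (P1.col ∘ c)), embc c t ⬝ᵥ z = 0 := by
      intro z hz
      induction hz using Submodule.span_induction with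
      | mem x hx =>
        obtain ⟨j, rfl⟩ := hx
        have : (P1.col ∘ c) j = P1 *ᵥ Pi.single (c j) 1 := by simp
        rw [this, skew_dot h1, single_one_dotProduct, ht j, neg_zero]
      | zero => simp
      | add a b _ _ ha hb => rw [dotProduct_add, ha, hb, add_zero]
      | smul r a _ ha => rw [dotProduct_smul, ha, smul_zero]
    have e2 : P1 *ᵥ embc c t = 0 := by
      ext j
      have := e1 (P1.col j) (hsp ▸ Submodule.subset_span ⟨j, rfl⟩)
      have e3 : P1.col j = P1 *ᵥ Pi.single j 1 := by simp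
      rw [e3, skew_dot h1, single_one_dotProduct, neg_eq_zero] at this
      exact this
    have e4 : ∑ i, t i • (P1.col ∘ c) i = 0 := by
      rw [← e2]; simp [embc, mulVec_sum, mulVec_smul]
    ext i
    exact Fintype.linearIndependent_iff.1 hc t e4 i
  have hcf : ∀ (w : Fin ρ → k[X]) d, cf (embc c w) d = embc c (fun i => (w i).coeff d) := by
    intro w d
    ext j
    simp only [cf, embc, Finset.sum_apply, Pi.smul_apply, smul_eq_mul, finsetSum_coeff]
    refine Finset.sum_congr rfl fun i _ => ?_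
    by_cases hj : j = c i <;> simp [hj]
  have hdeg : ∀ (w : Fin ρ → k[X]) (D : ℕ), (∀ d, D < d → cf (pen P0 P1 *ᵥ embc c w) d = 0) →
      ∀ d, D ≤ d → (fun i => (w i).coeff d) = 0 := by
    intro w D hw
    have main : ∀ j d, D ≤ d → (Finset.univ.sup fun i => (w i).natDegree) < d + j →
        (fun i => (w i).coeff d) = 0 := by
      intro j
      induction j with
      | zero =>
        intro d _ hd
        ext i
        exact coeff_eq_zero_of_natDegree_lt
          ((Finset.le_sup (f := fun i => (w i).natDegree) (Finset.mem_univ i)).trans_lt hd)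
      | succ j ih =>
        intro d hd hd'
        have e1 := ih (d + 1) (by omega) (by omega)
        have e2 := cf_pen P0 P1 (embc c w) d
        rw [hw _ (by omega), hcf, hcf, e1] at e2
        refine hnd _ fun j => ?_
        have e3 : embc c (0 : Fin ρ → k) = 0 := by simp [embc]
        rw [e3, mulVec_zero, zero_add] at e2
        rw [← e2]; rfl
    intro d hd
    exact main _ d hd (Nat.lt_add_left d (Nat.lt_succ_self _))
  have hsum : ∀ w : Fin ρ → k[X], ∑ i, w i • (pen P0 P1).col (c i) = pen P0 P1 *ᵥ embc c w := by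
    intro w; simp [embc, mulVec_sum, mulVec_smul]
  have hli : LinearIndependent k[X] fun i => (pen P0 P1).col (c i) := by
    rw [Fintype.linearIndependent_iff]
    intro w hw i
    rw [hsum] at hw
    ext d
    exact congrFun (hdeg w 0 (fun d _ => by rw [hw]; ext; simp [cf]) d (Nat.zero_le _)) i
  have hdep : ¬ LinearIndependent k[X]
      (Fin.cons (pen P0 P1 *ᵥ u1) fun i => (pen P0 P1).col (c i) : Fin (ρ + 1) → n → k[X]) := by
    intro hcon
    rw [← linearIndependent_algebraMap_comp_iff (S := FractionRing k[X])] at hcon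
    set M := (pen P0 P1).map (algebraMap k[X] (FractionRing k[X])) with hM
    have hmem : ∀ z : n → k[X], (algebraMap k[X] (FractionRing k[X])) ∘ (pen P0 P1 *ᵥ z) ∈
        LinearMap.range M.mulVecLin := by
      intro z
      refine ⟨(algebraMap k[X] (FractionRing k[X])) ∘ z, ?_⟩
      ext j
      rw [mulVecLin_apply, hM, ← RingHom.map_mulVec]; rfl
    let V : Fin (ρ + 1) → LinearMap.range M.mulVecLin := fun i =>
      ⟨(algebraMap k[X] (FractionRing k[X])) ∘ (Fin.cons (pen P0 P1 *ᵥ u1)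
        fun i => (pen P0 P1).col (c i) : Fin (ρ + 1) → n → k[X]) i, by
        refine Fin.cases (hmem u1) (fun i => ?_) i
        simpa using hmem (Pi.single (c i) 1)⟩
    have hV : LinearIndependent (FractionRing k[X]) V :=
      LinearIndependent.of_comp (LinearMap.range M.mulVecLin).subtype hcon
    have := hV.fintype_card_le_finrank
    rw [Fintype.card_fin] at this
    have e : finrank (FractionRing k[X]) (LinearMap.range M.mulVecLin) = M.rank := rfl
    omega
  rw [Fintype.not_linearIndependent_iff] at hdep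
  obtain ⟨g, hg, i0, hi0⟩ := hdep
  rw [Fin.sum_univ_succ] at hg
  simp only [Fin.cons_zero, Fin.cons_succ] at hg
  have hg0 : g 0 ≠ 0 := by
    intro h0
    rw [h0, zero_smul, zero_add] at hg
    have := Fintype.linearIndependent_iff.1 hli _ hg
    exact hi0 (Fin.cases h0 this i0)
  set q := X * (g 0 * q1) with hq
  have hq0 : q ≠ 0 := mul_ne_zero X_ne_zero (mul_ne_zero hg0 hq1)
  have hqd : q.natDegree = (g 0 * q1).natDegree + 1 := natDegree_X_mul (mul_ne_zero hg0 hq1)
  have hqv : q • cv v = pen P0 P1 *ᵥ embc c fun i => -(X * g i.succ) := by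
    rw [← hsum, hq, mul_smul, mul_smul, h, eq_neg_of_add_eq_zero_left hg, smul_neg,
      Finset.smul_sum, ← Finset.sum_neg_distrib]
    simp [mul_smul]
  refine ⟨q, embc c fun i => -(X * g i.succ), _, hq0, hqd, hqv, fun d hd => ?_⟩
  rw [hcf, hdeg _ q.natDegree (fun d hd => ?_) d (by omega)]
  · simp [embc]
  · rw [← hqv]
    ext j
    simp [cf, cv, coeff_eq_zero_of_natDegree_lt hd]

theorem dimE [DecidableEq n] {P0 P1 : Matrix n n k} (h0 : P0ᵀ = -P0) (h1 : P1ᵀ = -P1)
    (Λ : Submodule k[X] (n → k[X])) (hiso : ∀ g ∈ Λ, ∀ g' ∈ Λ, g ⬝ᵥ pen P0 P1 *ᵥ g' = 0)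
    (hco : ∀ η : n → k[X], (∀ g ∈ Λ, η ⬝ᵥ g = 0) →
      ∃ q : k[X], q ≠ 0 ∧ ∃ ζ ∈ Λ, q • η = pen P0 P1 *ᵥ ζ)
    (hreg : ((pen P0 P1).map (algebraMap k[X] (FractionRing k[X]))).rank ≤ P1.rank) :
    2 * finrank k (bigE P0 P1 Λ) ≤ P1.rank := by
  have hsk := pen_skew h0 h1
  have hpre : ∀ v ∈ bigE P0 P1 Λ, ∃ (ξ η ζ : n → k[X]) (q : k[X]), q ≠ 0 ∧ ζ ∈ Λ ∧
      q • η = pen P0 P1 *ᵥ ζ ∧ q • cv v = pen P0 P1 *ᵥ (ζ - q • ξ) := by
    rintro v ⟨ξ, hξ⟩
    obtain ⟨q, hq, ζ, hζ, h⟩ := hco (cv v + pen P0 P1 *ᵥ ξ) fun g hg => by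
      rw [add_dotProduct, hξ g hg, skew_dot hsk ξ g, dotProduct_comm g]; ring
    refine ⟨ξ, _, ζ, q, hq, hζ, h, ?_⟩
    rw [mulVec_sub, mulVec_smul, ← h, smul_add]; abel
  have hθ : ∀ v ∈ bigE P0 P1 Λ, ∃ θ ∈ ann (bigE P0 P1 Λ : Set (n → k)), P1 *ᵥ θ = v := by
    intro v hv
    obtain ⟨ξ, η, ζ, q1, hq1, hζ, hη, hv1⟩ := hpre v hv
    obtain ⟨q, u, D, hq, hD, hu, hcf⟩ := reg_step h1 hreg v q1 hq1 _ hv1
    have hl : q.leadingCoeff ≠ 0 := leadingCoeff_ne_zero.2 hq
    refine ⟨q.leadingCoeff⁻¹ • cf u D, Submodule.smul_mem _ _ fun v' hv' => ?_, ?_⟩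
    · obtain ⟨ξ', η', ζ', q2, hq2, hζ', hη', hv2⟩ := hpre v' hv'
      have e1 : q2 * (cv v' ⬝ᵥ u) = -(q * ((ζ' - q2 • ξ') ⬝ᵥ cv v)) := by
        rw [← smul_eq_mul, ← smul_dotProduct, hv2, dotProduct_comm, skew_dot hsk, ← hu,
          dotProduct_smul, smul_eq_mul]
      have e2 : q1 * ((ζ' - q2 • ξ') ⬝ᵥ cv v) =
          q1 * q2 * (ξ ⬝ᵥ η' - ξ' ⬝ᵥ η + ξ' ⬝ᵥ pen P0 P1 *ᵥ ξ) := by
        rw [← smul_eq_mul, ← dotProduct_smul, hv1, mulVec_sub, mulVec_smul, sub_dotProduct,
          dotProduct_sub, dotProduct_sub, hiso _ hζ' _ hζ, dotProduct_smul, skew_dot hsk ζ' ξ,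
          ← hη', ← hη]
        simp only [smul_dotProduct, dotProduct_smul, smul_eq_mul]; ring
      have e3 : cv v' ⬝ᵥ u = q * -(ξ ⬝ᵥ η' - ξ' ⬝ᵥ η + ξ' ⬝ᵥ pen P0 P1 *ᵥ ξ) := by
        refine mul_left_cancel₀ (mul_ne_zero hq1 hq2) ?_
        linear_combination q1 * e1 - q * e2
      have e4 : cv v' ⬝ᵥ u = 0 := by
        refine eq_zero_of_dvd_of_natDegree_lt ⟨_, e3⟩ ?_
        rw [hD, Nat.lt_succ_iff, natDegree_le_iff_coeff_eq_zero]
        intro N hN
        rw [coeff_cv_dot, hcf N hN, dotProduct_zero]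
      rw [dotProduct_comm, ← coeff_cv_dot, e4, coeff_zero]
    · have e1 := cf_pen P0 P1 u D
      rw [hcf (D + 1) (by omega), mulVec_zero, zero_add, ← hu] at e1
      rw [mulVec_smul, ← e1]
      ext j
      simp only [cf, cv, Pi.smul_apply, smul_eq_mul, coeff_mul_C, ← hD, coeff_natDegree]
      field_simp
  set E := bigE P0 P1 Λ with hE
  set L := ann (E : Set (n → k)) with hL
  have e1 := finrank_ann E
  have hker : LinearMap.ker P1.mulVecLin ≤ L := by
    intro κ hκ v hv
    obtain ⟨θ, -, rfl⟩ := hθ v hv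
    have : P1 *ᵥ κ = 0 := hκ
    rw [skew_dot h1, this]; simp
  have e2 := LinearMap.finrank_range_add_finrank_ker (P1.mulVecLin.domRestrict L)
  rw [LinearMap.range_domRestrict, LinearMap.ker_domRestrict,
    (Submodule.comapSubtypeEquivOfLe hker).finrank_eq] at e2
  have e3 : finrank k E ≤ finrank k (L.map P1.mulVecLin) := by
    refine Submodule.finrank_mono fun v hv => ?_
    obtain ⟨θ, h, rfl⟩ := hθ v hv
    exact ⟨θ, h, rfl⟩
  have e4 := LinearMap.finrank_range_add_finrank_ker P1.mulVecLin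
  have e5 : finrank k (LinearMap.range P1.mulVecLin) = P1.rank := rfl
  rw [← hL] at e1
  simp only [finrank_fintype_fun_eq_card] at e4
  omega

end Pool.Agent.MP_d920b6_mp.Nil

end
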