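import Pool.Agent.Mg.Fd920b6a.G7d8c3f

section

namespace Pool.Agent.MP_d920b6_mp.Nil

open Matrix Module MvPolynomial

variable {K : Type*} [Field K] {n : ℕ}

/-- triangular structure constants of a nilpotent Lie algebra -/
structure Tri (c : Fin n → Fin n → Fin n → K) : Prop where
  skew : ∀ i j k, c i j k = -c j i k
  tri : ∀ i j k, c i j k ≠ 0 → k < j
  jac : ∀ i j l m, ∑ k, c j l k * c i k m - ∑ k, c i l k * c j k m = ∑ k, c i j k * c k l m

variable (c : Fin n → Fin n → Fin n → K)

noncomputable def PM : Matrix (Fin n) (Fin n) (MvPolynomial (Fin n) K) :=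
  Matrix.of fun i j => ∑ k, c i j k • X k

noncomputable def ad (i : Fin n) :
    Derivation K (MvPolynomial (Fin n) K) (MvPolynomial (Fin n) K) :=
  mkDerivation K fun j => PM c i j

noncomputable def grad (f : MvPolynomial (Fin n) K) : Fin n → MvPolynomial (Fin n) K :=
  fun i => pderiv i f

lemma ad_X (i j : Fin n) : ad c i (X j) = ∑ k, c i j k • X k := by
  simp [ad, mkDerivation_X, PM]

lemma ad_eq (i : Fin n) (f : MvPolynomial (Fin n) K) : ad c i f = (PM c *ᵥ grad f) i := by
  have := chain (AlgHom.id K _) (ad c i : MvPolynomial (Fin n) K →ₗ[K] _)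
    (fun a b => by simp [Derivation.leibniz]) f
  simpa [ad, mkDerivation_X, mulVec, dotProduct, grad] using this

lemma der_sum_apply {R ι : Type*} [CommRing R] [Algebra K R] (s : Finset ι)
    (d : ι → Derivation K R R) (u : R) : (∑ i ∈ s, d i) u = ∑ i ∈ s, d i u := by
  classical
  induction s using Finset.induction_on with
  | empty => simp
  | insert a s ha ih => rw [Finset.sum_insert ha, Finset.sum_insert ha, Derivation.add_apply, ih]

variable {c}

lemma Tri.tri' (h : Tri c) (i j k : Fin n) (hk : c i j k ≠ 0) : k < i :=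
  h.tri j i k fun h0 => hk (by rw [h.skew, h0, neg_zero])

lemma PM_skew (h : Tri c) : (PM c)ᵀ = -PM c := by
  ext1 i j
  simp only [PM, transpose_apply, of_apply, Matrix.neg_apply, ← Finset.sum_neg_distrib, ← neg_smul]
  exact Finset.sum_congr rfl fun k _ => by rw [h.skew]

lemma ad_comm (h : Tri c) (i j : Fin n) (u : MvPolynomial (Fin n) K) :
    ad c i (ad c j u) - ad c j (ad c i u) = ∑ k, c i j k • ad c k u := by
  have : ⁅ad c i, ad c j⁆ = ∑ k, c i j k • ad c k := by
    refine derivation_ext fun l => ?_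
    rw [Derivation.commutator_apply, der_sum_apply]
    simp only [ad_X, map_sum, Derivation.map_smul, Derivation.smul_apply, Finset.smul_sum,
      smul_smul]
    rw [Finset.sum_comm, Finset.sum_comm (f := fun k m => (c i l k * c j k m) • X m),
      Finset.sum_comm (f := fun k m => (c i j k * c k l m) • X m), ← Finset.sum_sub_distrib]
    refine Finset.sum_congr rfl fun m _ => ?_
    rw [← Finset.sum_smul, ← Finset.sum_smul, ← Finset.sum_smul, ← sub_smul, h.jac]
  rw [← Derivation.commutator_apply, this, der_sum_apply]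
  rfl

/-- polynomials in the first `j` variables -/
noncomputable def low (K : Type*) [Field K] (n j : ℕ) : Subalgebra K (MvPolynomial (Fin n) K) :=
  Algebra.adjoin K {p | ∃ i : Fin n, i.val < j ∧ p = X i}

lemma der_low {j : ℕ} (d : Derivation K (MvPolynomial (Fin n) K) (MvPolynomial (Fin n) K))
    (I : Subalgebra K (MvPolynomial (Fin n) K)) (hI : low K n j ≤ I)
    (hd : ∀ i : Fin n, i.val < j → d (X i) ∈ I) (u) (hu : u ∈ low K n j) : d u ∈ I := by
  induction hu using Algebra.adjoin_induction with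
  | mem p hp => obtain ⟨i, hi, rfl⟩ := hp; exact hd i hi
  | algebraMap r => simp
  | add a b _ _ ha hb => rw [map_add]; exact add_mem ha hb
  | mul a b ha' hb' ha hb =>
    rw [Derivation.leibniz, smul_eq_mul, smul_eq_mul]
    exact add_mem (mul_mem (hI ha') hb) (mul_mem (hI hb') ha)

lemma grad_low {j : ℕ} (u) (hu : u ∈ low K n j) (l : Fin n) (hl : j ≤ l.val) : grad u l = 0 := by
  unfold grad
  induction hu using Algebra.adjoin_induction with
  | mem p hp =>
    obtain ⟨i, hi, rfl⟩ := hp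
    exact pderiv_X_of_ne (by rintro rfl; omega)
  | algebraMap r => simp
  | add a b _ _ ha hb => rw [map_add, ha, hb, add_zero]
  | mul a b _ _ ha hb => rw [Derivation.leibniz, ha, hb]; simp

lemma ad_low (h : Tri c) {j : ℕ} (l : Fin n) (u) (hu : u ∈ low K n j) : ad c l u ∈ low K n j := by
  refine der_low _ _ le_rfl (fun i hi => ?_) u hu
  rw [ad_X]
  refine Subalgebra.sum_mem _ fun k _ => ?_
  by_cases hk : c l i k = 0
  · simp [hk]
  · refine Subalgebra.smul_mem _ (Algebra.subset_adjoin ?_) _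
    exact ⟨k, by have := h.tri _ _ _ hk; omega, rfl⟩

variable (c) in
/-- Poisson centre of the symmetric algebra of the `j`-th ideal -/
def Zc (j : ℕ) : Set (MvPolynomial (Fin n) K) :=
  {f | f ∈ low K n j ∧ ∀ i : Fin n, i.val < j → ad c i f = 0}

lemma ad_Zc (h : Tri c) {j : ℕ} (l : Fin n) (f) (hf : f ∈ Zc c j) : ad c l f ∈ Zc c j := by
  refine ⟨ad_low h l f hf.1, fun i hi => ?_⟩
  have := ad_comm h i l f
  rw [hf.2 i hi, map_zero, sub_zero] at this
  rw [this]
  refine Finset.sum_eq_zero fun k _ => ?_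
  by_cases hk : c i l k = 0
  · simp [hk]
  · rw [hf.2 k (by have := h.tri' _ _ _ hk; omega), smul_zero]

section Pt

variable {S : Type*} [CommRing S] [Algebra K S] (ψ : MvPolynomial (Fin n) K →ₐ[K] S)

lemma map_ad (i : Fin n) (f : MvPolynomial (Fin n) K) :
    ψ (ad c i f) = ((PM c).map ψ *ᵥ (ψ ∘ grad f)) i := by
  simp [ad_eq, mulVec, dotProduct]

lemma map_skew (h : Tri c) : ((PM c).map ψ)ᵀ = -(PM c).map ψ := by
  rw [← transpose_map, PM_skew h]; ext; simp

lemma iso_Zc (h : Tri c) {i j : ℕ} (f g) (hf : f ∈ Zc c i) (hg : g ∈ Zc c j) :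
    (ψ ∘ grad f) ⬝ᵥ (PM c).map ψ *ᵥ (ψ ∘ grad g) = 0 := by
  wlog hij : i ≤ j generalizing i j f g
  · rw [skew_dot (map_skew ψ h), this g f hg hf (by omega), neg_zero]
  refine Finset.sum_eq_zero fun l _ => ?_
  by_cases hl : l.val < j
  · rw [← map_ad, hg.2 l hl]; simp
  · simp [grad_low f hf.1 l (by omega)]

lemma iso_span (h : Tri c) (W : Set (Fin n → S)) (hW : ∀ w ∈ W, ∃ j, ∃ f ∈ Zc c j, w = ψ ∘ grad f)
    (W' : Set (Fin n → S)) (hW' : ∀ w ∈ W', ∃ j, ∃ f ∈ Zc c j, w = ψ ∘ grad f)
    (a b) (ha : a ∈ Submodule.span S W) (hb : b ∈ Submodule.span S W') :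
    a ⬝ᵥ (PM c).map ψ *ᵥ b = 0 := by
  induction ha using Submodule.span_induction with
  | mem x hx =>
    induction hb using Submodule.span_induction with
    | mem y hy =>
      obtain ⟨i, f, hf, rfl⟩ := hW x hx
      obtain ⟨j, g, hg, rfl⟩ := hW' y hy
      exact iso_Zc ψ h f g hf hg
    | zero => simp
    | add a b _ _ ha hb => rw [mulVec_add, dotProduct_add, ha, hb, add_zero]
    | smul r a _ ha => rw [mulVec_smul, dotProduct_smul, ha, smul_zero]
  | zero => simp
  | add a b _ _ ha hb => rw [add_dotProduct, ha, hb, add_zero]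
  | smul r a _ ha => rw [smul_dotProduct, ha, smul_zero]

/-- the derivation along a vector -/
noncomputable def dirD (η : Fin n → S) : MvPolynomial (Fin n) K →ₗ[K] S where
  toFun u := η ⬝ᵥ (ψ ∘ grad u)
  map_add' a b := by simp [dotProduct, grad, mul_add, Finset.sum_add_distrib]
  map_smul' r a := by simp [dotProduct, grad, Finset.smul_sum]

lemma dirD_apply (η : Fin n → S) (u) : dirD ψ η u = η ⬝ᵥ (ψ ∘ grad u) := rfl

lemma dirD_mul (η : Fin n → S) (a b) :
    dirD ψ η (a * b) = ψ a * dirD ψ η b + ψ b * dirD ψ η a := by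
  simp only [dirD_apply, dotProduct, grad, Function.comp_apply, Derivation.leibniz, smul_eq_mul,
    map_add, map_mul, Finset.mul_sum, ← Finset.sum_add_distrib]
  exact Finset.sum_congr rfl fun i _ => by ring

lemma dirD_X (η : Fin n → S) (l) : dirD ψ η (X l) = η l := by
  simp only [dirD_apply, dotProduct, grad, Function.comp_apply, pderiv_X]
  rw [Finset.sum_eq_single l]
  · simp
  · intro i _ hi; simp [hi.symm]
  · simp

end Pt

variable [CharZero K] {F : Type*} [Field F] [Algebra K F] (ψ : MvPolynomial (Fin n) K →ₐ[K] F)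

lemma stepU (h : Tri c) (hψ : Function.Injective ψ) (j : ℕ) (η : Fin n → F)
    (hη : ∀ f ∈ Zc c j, η ⬝ᵥ (ψ ∘ grad f) = 0) :
    ∃ ξ : Fin n → F, (∀ i : Fin n, j ≤ i.val → ξ i = 0) ∧
      ∀ l : Fin n, l.val < j → η l = (ξ ᵥ* (PM c).map ψ) l := by
  let δ : Fin n → Derivation K (MvPolynomial (Fin n) K) (MvPolynomial (Fin n) K) :=
    fun i => if i.val < j then ad c i else 0
  obtain ⟨B, hB, hB'⟩ := lemmaU ψ δ (fun m => (fil K (Fin.val : Fin n → ℕ) m : Set _)) (fil_zero _)
    (fun m i u hu => fil_der _ _ (fun l => by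
      by_cases hi : i.val < j
      · simp only [δ, hi, if_true, ad_X]
        refine Submodule.sum_mem _ fun k _ => ?_
        by_cases hk : c i l k = 0
        · simp [hk]
        · exact Submodule.smul_mem _ _ (Submodule.subset_span ⟨k, h.tri _ _ _ hk, rfl⟩)
      · simp [δ, hi]) m u hu) (fil_ex _)
    (fun i l I u hu => by
      by_cases hi : i.val < j
      · by_cases hl : l.val < j
        · simp only [δ, hi, hl, if_true, ad_comm h]
          refine I.sum_mem fun k _ => ?_
          by_cases hk : c i l k = 0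
          · simp [hk]
          · have h1 := h.tri' _ _ _ hk
            have h2 := hu k h1
            simp only [δ, show k.val < j by omega, if_true] at h2
            rw [smul_eq_C_mul]
            exact I.mul_mem_left _ h2
        · simp [δ, hl]
      · simp [δ, hi]) (low K n j)
    (fun i u hu => by
      by_cases hi : i.val < j
      · simpa only [δ, hi, if_true] using ad_low h i u hu
      · simp [δ, hi])
  obtain ⟨e, he⟩ := hB' (dirD ψ η) (dirD_mul ψ η) fun u hu => hη u ⟨(hB u hu).1, fun i hi => by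
    have := (hB u hu).2 i
    simp only [δ, hi, if_true] at this
    exact hψ (by rw [this, map_zero])⟩
  refine ⟨fun i => if i.val < j then e i else 0, fun i hi => by simp [not_lt.2 hi], fun l hl => ?_⟩
  have := he (X l) (Algebra.subset_adjoin ⟨l, hl, rfl⟩)
  rw [dirD_X] at this
  rw [this]
  refine Finset.sum_congr rfl fun i _ => ?_
  by_cases hi : i.val < j
  · simp [δ, hi, ad, mkDerivation_X]
  · simp [δ, hi]

theorem coiso (h : Tri c) (hψ : Function.Injective ψ) (η : Fin n → F)
    (hη : ∀ j, ∀ f ∈ Zc c j, η ⬝ᵥ (ψ ∘ grad f) = 0) :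
    ∃ ζ ∈ Submodule.span F {w | ∃ j, ∃ f ∈ Zc c j, w = ψ ∘ grad f},
      η = (PM c).map ψ *ᵥ ζ := by
  have : CharZero F := charZero_of_injective_algebraMap (algebraMap K F).injective
  set P := (PM c).map ψ with hP
  have hsk : Pᵀ = -P := map_skew ψ h
  set W : Set (Fin n → F) := {w | ∃ j, ∃ f ∈ Zc c j, w = ψ ∘ grad f} with hW
  have hvm : ∀ ξ, ξ ᵥ* P = -(P *ᵥ ξ) := fun ξ => by rw [← mulVec_transpose, hsk, neg_mulVec]
  have main : ∀ j, ∃ ζ ∈ Submodule.span F W, ∀ l : Fin n, l.val < j → η l = (P *ᵥ ζ) l := by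
    intro j
    induction j with
    | zero => exact ⟨0, zero_mem _, fun l hl => by omega⟩
    | succ j ih =>
      obtain ⟨ζ, hζ, hl⟩ := ih
      obtain ⟨ξ, hξ0, hξ⟩ := stepU ψ h hψ (j + 1) (η - P *ᵥ ζ) fun f hf => by
        rw [sub_dotProduct, hη _ f hf, dotProduct_comm,
          iso_span ψ h W (fun _ => id) W (fun _ => id) _ _
            (Submodule.subset_span ⟨_, f, hf, rfl⟩) hζ, sub_zero]
      rw [← hP] at hξ
      have h1 : ∀ l : Fin n, l.val < j → (ξ ᵥ* P) l = 0 := fun l hl' => by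
        rw [← hξ l (by omega), Pi.sub_apply, hl l hl', sub_self]
      by_cases hj : ∃ l : Fin n, l.val = j ∧ ξ l ≠ 0
      · obtain ⟨l, hlj, hl0⟩ := hj
        have h2 : ξ ⬝ᵥ P *ᵥ ξ = 0 := by
          have := skew_dot hsk ξ ξ
          linear_combination (1 / 2 : F) * this
        rw [dotProduct_mulVec, dotProduct, Finset.sum_eq_single l] at h2
        · refine ⟨ζ, hζ, fun l' hl' => ?_⟩
          rcases Nat.lt_succ_iff_lt_or_eq.1 hl' with h3 | h3
          · exact hl l' h3
          · obtain rfl : l' = l := Fin.ext (by omega)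
            rw [← sub_eq_zero, ← Pi.sub_apply, hξ l' hl']
            exact (mul_eq_zero.1 h2).resolve_right hl0
        · intro i _ hi
          rcases lt_trichotomy i.val j with h3 | h3 | h3
          · rw [h1 i h3, zero_mul]
          · exact absurd (Fin.ext (by omega)) hi
          · rw [hξ0 i h3, mul_zero]
        · simp
      · push Not at hj
        have h2 : ∀ i : Fin n, j ≤ i.val → ξ i = 0 := fun i hi => by
          rcases hi.eq_or_lt with h3 | h3
          · exact hj i h3.symm
          · exact hξ0 i h3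
        have h3 : ξ ∈ Submodule.span F W := by
          refine mem_of_ann _ _ fun v hv => ?_
          obtain ⟨ξ', hξ'0, hξ'⟩ := stepU ψ h hψ j v fun f hf =>
            hv _ (Submodule.subset_span ⟨_, f, hf, rfl⟩)
          rw [← hP] at hξ'
          have e1 : v ⬝ᵥ ξ = (ξ' ᵥ* P) ⬝ᵥ ξ := Finset.sum_congr rfl fun l _ => by
            by_cases hl : l.val < j
            · rw [hξ' l hl]
            · rw [h2 l (by omega), mul_zero, mul_zero]
          rw [e1, ← dotProduct_mulVec, skew_dot hsk, dotProduct_mulVec, neg_eq_zero]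
          refine Finset.sum_eq_zero fun l _ => ?_
          by_cases hl : l.val < j
          · rw [h1 l hl, zero_mul]
          · rw [hξ'0 l (by omega), mul_zero]
        refine ⟨ζ - ξ, sub_mem hζ h3, fun l hl' => ?_⟩
        have := hξ l hl'
        rw [hvm] at this
        rw [mulVec_sub]
        simp only [Pi.sub_apply, Pi.neg_apply] at this ⊢
        linear_combination this
  obtain ⟨ζ, hζ, hl⟩ := main n
  exact ⟨ζ, hζ, funext fun l => hl l l.2⟩

end Pool.Agent.MP_d920b6_mp.Nil

end

section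

namespace Pool.Agent.MP_d920b6_mp.Nil

open Matrix Module MvPolynomial

variable {K : Type*} [Field K] {n : ℕ}

noncomputable def jet (K : Type*) [Field K] (n : ℕ) :
    MvPolynomial (Fin n) K →ₐ[K] PowerSeries (MvPolynomial (Fin n × ℕ) K) :=
  aeval fun i => PowerSeries.mk fun l => X (i, l)

noncomputable def sigA (a : Fin n → K) : MvPolynomial (Fin n × ℕ) K →ₐ[K] MvPolynomial (Fin n) K :=
  aeval fun p => if p.2 = 0 then C (a p.1) else if p.2 = 1 then X p.1 else 0

noncomputable def dj (c : Fin n → Fin n → Fin n → K) (i : Fin n) (m : ℕ) :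
    Derivation K (MvPolynomial (Fin n × ℕ) K) (MvPolynomial (Fin n × ℕ) K) :=
  mkDerivation K fun p => if m ≤ p.2 then ∑ r, c i p.1 r • X (r, p.2 - m) else 0

lemma dj_X (c : Fin n → Fin n → Fin n → K) (i : Fin n) (m : ℕ) (j : Fin n) (l : ℕ) :
    dj c i m (X (j, l)) = if m ≤ l then ∑ r, c i j r • X (r, l - m) else 0 := by
  simp [dj, mkDerivation_X]

variable {c : Fin n → Fin n → Fin n → K}

lemma dj_comm (h : Tri c) (i j : Fin n) (m m' : ℕ) (u : MvPolynomial (Fin n × ℕ) K) :
    dj c i m (dj c j m' u) - dj c j m' (dj c i m u) = ∑ r, c i j r • dj c r (m + m') u := by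
  have : ⁅dj c i m, dj c j m'⁆ = ∑ r, c i j r • dj c r (m + m') := by
    refine derivation_ext fun p => ?_
    obtain ⟨l, t⟩ := p
    rw [Derivation.commutator_apply, der_sum_apply]
    by_cases ht : m + m' ≤ t
    · simp only [dj_X, show m ≤ t by omega, show m' ≤ t by omega, show m ≤ t - m' by omega,
        show m' ≤ t - m by omega, ht, if_true, map_sum, Derivation.map_smul,
        Derivation.smul_apply, Finset.smul_sum, smul_smul, show t - m' - m = t - (m + m') by omega,
        show t - m - m' = t - (m + m') by omega]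
      rw [Finset.sum_comm,
        Finset.sum_comm (f := fun k s => (c i l k * c j k s) • X (s, t - (m + m'))),
        Finset.sum_comm (f := fun k s => (c i j k * c k l s) • X (s, t - (m + m'))),
        ← Finset.sum_sub_distrib]
      refine Finset.sum_congr rfl fun s _ => ?_
      rw [← Finset.sum_smul, ← Finset.sum_smul, ← Finset.sum_smul, ← sub_smul, h.jac]
    · have e1 : dj c i m (dj c j m' (X (l, t))) = 0 := by
        rw [dj_X]
        split_ifs with h1
        · simp [dj_X, show ¬ m ≤ t - m' by omega]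
        · simp
      have e2 : dj c j m' (dj c i m (X (l, t))) = 0 := by
        rw [dj_X]
        split_ifs with h1
        · simp [dj_X, show ¬ m' ≤ t - m by omega]
        · simp
      rw [e1, e2]; simp [dj_X, ht]
  rw [← Derivation.commutator_apply, this, der_sum_apply]
  rfl

lemma hat_chain {S : Type*} [CommRing S] [Algebra K S] (σ : MvPolynomial (Fin n × ℕ) K →ₐ[K] S)
    (V : MvPolynomial (Fin n × ℕ) K →ₗ[K] S) (hV : ∀ a b, V (a * b) = σ a * V b + σ b * V a)
    (f : MvPolynomial (Fin n) K) (l : ℕ) :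
    V (PowerSeries.coeff l (jet K n f)) = PowerSeries.coeff l
      (∑ i, (PowerSeries.mk fun t => V (X (i, t))) *
        PowerSeries.mapAlgHom σ (jet K n (pderiv i f))) := by
  let W : MvPolynomial (Fin n) K →ₗ[K] PowerSeries S :=
    { toFun := fun f => PowerSeries.mk fun l => V (PowerSeries.coeff l (jet K n f))
      map_add' := fun a b => by ext; simp
      map_smul' := fun r a => by ext; simp }
  have := chain ((PowerSeries.mapAlgHom σ).comp (jet K n)) W (fun a b => by
    ext l
    simp only [W, LinearMap.coe_mk, AddHom.coe_mk, map_mul, PowerSeries.coeff_mk,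
      PowerSeries.coeff_mul, map_sum, hV, map_add, Finset.sum_add_distrib, AlgHom.comp_apply,
      PowerSeries.mapAlgHom_apply, PowerSeries.coeff_map]
    congr 1
    exact Finset.Nat.sum_antidiagonal_swap (n := l)
      (f := fun p => σ (PowerSeries.coeff p.1 (jet K n b)) *
        V (PowerSeries.coeff p.2 (jet K n a)))) f
  have e := congrArg (PowerSeries.coeff l) this
  simp only [W, LinearMap.coe_mk, AddHom.coe_mk, PowerSeries.coeff_mk] at e
  rw [e]
  simp [jet]

lemma dj_jet (i : Fin n) (m : ℕ) (f : MvPolynomial (Fin n) K) (l : ℕ) :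
    dj c i m (PowerSeries.coeff l (jet K n f)) =
      PowerSeries.coeff l (PowerSeries.X ^ m * jet K n (ad c i f)) := by
  have := hat_chain (AlgHom.id K _) (dj c i m : MvPolynomial (Fin n × ℕ) K →ₗ[K] _)
    (fun a b => by simp [Derivation.leibniz]) f l
  refine this.trans (congrArg _ ?_)
  rw [ad_eq, mulVec, dotProduct, map_sum, Finset.mul_sum]
  refine Finset.sum_congr rfl fun j _ => ?_
  rw [map_mul, ← mul_assoc]
  congr 1
  ext1 t
  rw [PowerSeries.coeff_X_pow_mul']
  simp [dj_X, PM, jet]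

section Fr

variable {k : Type*} [Field k] [Algebra K k] (ι : MvPolynomial (Fin n) K →ₐ[K] k) (a : Fin n → K)

noncomputable def shf : MvPolynomial (Fin n) K →ₐ[K] Polynomial k :=
  aeval fun i => Polynomial.C (algebraMap K k (a i)) + Polynomial.X * Polynomial.C (ι (X i))

lemma sig_jet (f : MvPolynomial (Fin n) K) :
    PowerSeries.mapAlgHom (ι.comp (sigA a)) (jet K n f) = (shf ι a f : PowerSeries k) := by
  have : (PowerSeries.mapAlgHom (ι.comp (sigA a))).comp (jet K n) =
      ((Polynomial.coeToPowerSeries.algHom k).restrictScalars K).comp (shf ι a) := by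
    refine MvPolynomial.algHom_ext fun i => ?_
    ext l
    rw [AlgHom.comp_apply, PowerSeries.mapAlgHom_apply, PowerSeries.coeff_map]
    rcases l with _ | _ | l <;> simp [jet, shf, sigA, PowerSeries.coeff_C]
  simpa using AlgHom.congr_fun this f

lemma shf_inj (hι : Function.Injective ι) : Function.Injective (shf ι a) := by
  let T : (Fin n → K) → MvPolynomial (Fin n) K →ₐ[K] MvPolynomial (Fin n) K :=
    fun b => aeval fun i => C (b i) + X i
  have hT : (T (-a)).comp (T a) = AlgHom.id K _ :=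
    MvPolynomial.algHom_ext fun i => by simp [T]
  have : ((Polynomial.aeval (1 : k)).restrictScalars K).comp (shf ι a) = ι.comp (T a) :=
    MvPolynomial.algHom_ext fun i => by
      have : ι (C (a i)) = algebraMap K k (a i) := ι.commutes _
      simp [shf, T, this]
  intro f g hfg
  have e1 : ι (T a f) = ι (T a g) := by
    rw [← AlgHom.comp_apply, ← AlgHom.comp_apply, ← this]
    simp [hfg]
  have e2 := congrArg (T (-a)) (hι e1)
  rwa [← AlgHom.comp_apply, ← AlgHom.comp_apply, hT] at e2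

lemma shf_PM : (PM c).map (shf ι a) =
    pen (((PM c).map (eval a)).map (algebraMap K k)) ((PM c).map ι) := by
  ext1 i j
  simp only [pen, PM, map_apply, of_apply, Matrix.add_apply, Matrix.smul_apply, map_sum,
    smul_eq_mul, Finset.mul_sum, ← Finset.sum_add_distrib]
  refine Finset.sum_congr rfl fun r _ => ?_
  simp [shf, Algebra.smul_def]
  ring

lemma dir_jet (v : Fin n → k) (f : MvPolynomial (Fin n) K) (l : ℕ) :
    dirD ι v (sigA a (PowerSeries.coeff l (jet K n f))) =
      (Polynomial.X * (cv v ⬝ᵥ (shf ι a ∘ grad f))).coeff l := by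
  have := hat_chain (ι.comp (sigA a)) ((dirD ι v).comp (sigA a).toLinearMap)
    (fun x y => by simp [dirD_mul]) f l
  refine this.trans ?_
  rw [← Polynomial.coeff_coe]
  congr 1
  rw [dotProduct, Finset.mul_sum, ← Polynomial.coeToPowerSeries.ringHom_apply, map_sum]
  refine Finset.sum_congr rfl fun j _ => ?_
  rw [sig_jet, ← mul_assoc, map_mul]
  congr 1
  ext t
  have e : ∀ r : K, dirD ι v (C r) = 0 := fun r => by simp [dirD_apply, grad, dotProduct]
  rcases t with _ | _ | t <;> simp [sigA, cv, dirD_X, e, PowerSeries.coeff_X]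

end Fr

end Pool.Agent.MP_d920b6_mp.Nil

end

section

namespace Pool.Agent.MP_d920b6_mp.Nil

open Matrix Module MvPolynomial

variable {K : Type*} [Field K] {n : ℕ} {c : Fin n → Fin n → Fin n → K}

lemma rank_eval_le {F m n' τ : Type*} [Field F] [Fintype m] [Fintype n']
    (M : Matrix m n' (MvPolynomial τ K)) (f : MvPolynomial τ K →+* F)
    (hf : Function.Injective f) (z : τ → K) : (M.map (eval z)).rank ≤ (M.map f).rank := by
  classical
  rw [rank_eq_finrank_span_row (M.map (eval z))]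
  obtain ⟨g, hg, -⟩ := exists_indep (F := K) (M.map (eval z)).row
  obtain ⟨e, he⟩ := exists_minor _ hg
  have h1 : ((M.map f).submatrix g e).det ≠ 0 := by
    have e1 : (M.map f).submatrix g e = f.mapMatrix (M.submatrix g e) := rfl
    have e2 : (Matrix.of fun i j => ((M.map (eval z)).row ∘ g) i (e j)) =
      (eval z).mapMatrix (M.submatrix g e) := rfl
    rw [e2, ← RingHom.map_det] at he
    rw [e1, ← RingHom.map_det]
    intro h0
    exact he (by rw [hf (h0.trans (map_zero f).symm), map_zero])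
  have h2 := rank_of_det_ne_zero h1
  have h3 := rank_submatrix_le (M.map f) g e
  simp at h2
  omega

/-- the truncated loop algebra -/
noncomputable def dl (c : Fin n → Fin n → Fin n → K) (d : ℕ) (p : Fin n ×ₗ Fin (d * 2 ^ n + 1)) :
    Derivation K (MvPolynomial (Fin n × ℕ) K) (MvPolynomial (Fin n × ℕ) K) :=
  if 1 ≤ (ofLex p).2.val ∧ (ofLex p).2.val ≤ d * 2 ^ (n - (ofLex p).1.val) then
    dj c (ofLex p).1 (ofLex p).2 else 0

lemma dl_br (h : Tri c) (d : ℕ) (p q : Fin n ×ₗ Fin (d * 2 ^ n + 1))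
    (I : Ideal (MvPolynomial (Fin n × ℕ) K)) (u) (hu : ∀ r < p, dl c d r u ∈ I) :
    dl c d p (dl c d q u) - dl c d q (dl c d p u) ∈ I := by
  obtain ⟨i, m⟩ := p
  obtain ⟨j, m'⟩ := q
  by_cases hp : 1 ≤ m.val ∧ m.val ≤ d * 2 ^ (n - i.val)
  · by_cases hq : 1 ≤ m'.val ∧ m'.val ≤ d * 2 ^ (n - j.val)
    · have e1 : dl c d (i, m) = dj c i m := if_pos hp
      have e2 : dl c d (j, m') = dj c j m' := if_pos hq
      rw [e1, e2, dj_comm h]
      refine I.sum_mem fun r _ => ?_
      by_cases hr : c i j r = 0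
      · simp [hr]
      have h1 : r < i := h.tri' _ _ _ hr
      have h2 : r < j := h.tri _ _ _ hr
      have h3 : m.val + m'.val ≤ d * 2 ^ (n - r.val) := by
        have a1 : 2 ^ (n - i.val) ≤ 2 ^ (n - r.val - 1) :=
          Nat.pow_le_pow_right (by norm_num) (by omega)
        have a2 : 2 ^ (n - j.val) ≤ 2 ^ (n - r.val - 1) :=
          Nat.pow_le_pow_right (by norm_num) (by omega)
        have a3 : 2 ^ (n - r.val) = 2 ^ (n - r.val - 1) + 2 ^ (n - r.val - 1) := by
          conv_lhs => rw [show n - r.val = (n - r.val - 1) + 1 by omega, pow_succ]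
          ring
        rw [a3, mul_add]
        exact add_le_add (hp.2.trans (Nat.mul_le_mul_left _ a1))
          (hq.2.trans (Nat.mul_le_mul_left _ a2))
      have h4 : m.val + m'.val < d * 2 ^ n + 1 := Nat.lt_succ_of_le
        (h3.trans (Nat.mul_le_mul_left _ (Nat.pow_le_pow_right (by norm_num) (by omega))))
      have h5 := hu (toLex (r, ⟨_, h4⟩)) (Prod.Lex.left _ _ h1)
      have e3 : dl c d (toLex (r, ⟨_, h4⟩)) = dj c r (m + m') :=
        if_pos ⟨hp.1.trans (Nat.le_add_right _ _), h3⟩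
      rw [e3] at h5
      rw [smul_eq_C_mul]
      exact I.mul_mem_left _ h5
    · have e2 : dl c d (j, m') = 0 := if_neg hq
      simp [e2]
  · have e1 : dl c d (i, m) = 0 := if_neg hp
    simp [e1]

lemma dl_fil (h : Tri c) (d : ℕ) (p : Fin n ×ₗ Fin (d * 2 ^ n + 1)) (q : Fin n × ℕ) :
    dl c d p (X q) ∈ Submodule.span K
      {z | ∃ r : Fin n × ℕ, r.1.val < q.1.val ∧ z = (X r : MvPolynomial (Fin n × ℕ) K)} := by
  obtain ⟨j, l⟩ := q
  unfold dl
  split_ifs
  · rw [dj_X]
    split_ifs
    · refine Submodule.sum_mem _ fun r _ => ?_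
      by_cases hr : c (ofLex p).1 j r = 0
      · simp [hr]
      · exact Submodule.smul_mem _ _ (Submodule.subset_span ⟨_, h.tri _ _ _ hr, rfl⟩)
    · exact zero_mem _
  · simp

/-- algebra generated by the jets of the Vergne family -/
noncomputable def jetO (c : Fin n → Fin n → Fin n → K) :
    Subalgebra K (MvPolynomial (Fin n × ℕ) K) :=
  Algebra.adjoin K {u | ∃ j, ∃ f ∈ Zc c j, ∃ l, u = PowerSeries.coeff l (jet K n f)}

lemma dl_jetO (h : Tri c) (d : ℕ) (p : Fin n ×ₗ Fin (d * 2 ^ n + 1)) (u) (hu : u ∈ jetO c) :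
    dl c d p u ∈ jetO c := by
  unfold dl
  split_ifs
  · induction hu using Algebra.adjoin_induction with
    | mem z hz =>
      obtain ⟨j, f, hf, l, rfl⟩ := hz
      rw [dj_jet, PowerSeries.coeff_X_pow_mul']
      split_ifs
      · exact Algebra.subset_adjoin ⟨j, _, ad_Zc h _ f hf, _, rfl⟩
      · exact zero_mem _
    | algebraMap r => simp
    | add a b _ _ ha hb => rw [map_add]; exact add_mem ha hb
    | mul a b ha' hb' ha hb =>
      rw [Derivation.leibniz, smul_eq_mul, smul_eq_mul]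
      exact add_mem (mul_mem ha' hb) (mul_mem hb' ha)
  · simp

section Fr

variable {k : Type*} [Field k] [Algebra K k] (ι : MvPolynomial (Fin n) K →ₐ[K] k) (a : Fin n → K)

noncomputable def xi {d : ℕ} (e : Fin n ×ₗ Fin (d * 2 ^ n + 1) → k) (i : Fin n) : Polynomial k :=
  ∑ m : Fin (d * 2 ^ n + 1), if 1 ≤ m.val ∧ m.val ≤ d * 2 ^ (n - i.val) then
    Polynomial.C (e (toLex (i, m))) * Polynomial.X ^ m.val else 0

lemma xi_jet {d : ℕ} (e : Fin n ×ₗ Fin (d * 2 ^ n + 1) → k) (f : MvPolynomial (Fin n) K) (l : ℕ) :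
    ∑ p, e p * ι (sigA a (dl c d p (PowerSeries.coeff l (jet K n f)))) =
      (xi e ⬝ᵥ (PM c).map (shf ι a) *ᵥ (shf ι a ∘ grad f)).coeff l := by
  rw [← (toLex : Fin n × Fin (d * 2 ^ n + 1) ≃ _).sum_comp, Fintype.sum_prod_type, dotProduct,
    Polynomial.finsetSum_coeff]
  refine Finset.sum_congr rfl fun i _ => ?_
  rw [← map_ad, xi, Finset.sum_mul, Polynomial.finsetSum_coeff]
  refine Finset.sum_congr rfl fun m _ => ?_
  by_cases hm : 1 ≤ m.val ∧ m.val ≤ d * 2 ^ (n - i.val)
  · have e1 : dl c d (toLex (i, m)) = dj c i m := if_pos hm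
    rw [e1, if_pos hm, dj_jet, mul_assoc, Polynomial.coeff_C_mul]
    congr 1
    have := congrArg (PowerSeries.coeff l)
      (map_mul (PowerSeries.mapAlgHom (ι.comp (sigA a))) (PowerSeries.X ^ m.val)
        (jet K n (ad c i f)))
    rw [sig_jet, PowerSeries.mapAlgHom_apply, PowerSeries.coeff_map] at this
    refine this.trans ?_
    rw [← Polynomial.coeff_coe]
    simp [PowerSeries.mapAlgHom_apply]
  · have e1 : dl c d (toLex (i, m)) = 0 := if_neg hm
    rw [e1, if_neg hm]; simp

lemma xi_dvd {d : ℕ} (e : Fin n ×ₗ Fin (d * 2 ^ n + 1) → k) :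
    ∃ ξ : Fin n → Polynomial k, xi e = (Polynomial.X : Polynomial k) • ξ := by
  have : ∀ i, Polynomial.X ∣ xi e i := fun i => by
    refine Finset.dvd_sum fun m _ => ?_
    split_ifs with hm
    · exact Dvd.dvd.mul_left (dvd_pow_self _ (by omega)) _
    · exact dvd_zero _
  choose ξ hξ using this
  exact ⟨ξ, funext hξ⟩

lemma xi_surj {d : ℕ} (ξ : Fin n → Polynomial k) (hξ : ∀ i, (ξ i).natDegree ≤ d)
    (hξ0 : ∀ i, (ξ i).coeff 0 = 0) :
    xi (d := d) (fun p => (ξ (ofLex p).1).coeff (ofLex p).2.val) = ξ := by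
  ext1 i
  have h1 : d ≤ d * 2 ^ (n - i.val) := Nat.le_mul_of_pos_right _ (by positivity)
  have h2 : d ≤ d * 2 ^ n := Nat.le_mul_of_pos_right _ (by positivity)
  conv_rhs => rw [(ξ i).as_sum_range' (d * 2 ^ n + 1) (by have := hξ i; omega)]
  rw [xi, Finset.sum_range]
  refine Finset.sum_congr rfl fun m _ => ?_
  split_ifs with hm
  · simp [Polynomial.C_mul_X_pow_eq_monomial]
  · rcases Nat.eq_zero_or_pos m.val with h0 | h0
    · rw [h0, hξ0]; simp
    · rw [Polynomial.coeff_eq_zero_of_natDegree_lt (by have := hξ i; omega)]; simp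

end Fr

lemma bigE_deg {k : Type*} [Field k] (P0 P1 : Matrix (Fin n) (Fin n) k)
    (Λ : Set (Fin n → Polynomial k)) :
    ∃ d, ∀ v ∈ bigE P0 P1 Λ, ∃ ξ : Fin n → Polynomial k, (∀ i, (ξ i).natDegree ≤ d) ∧
      ∀ g ∈ Λ, cv v ⬝ᵥ g = ξ ⬝ᵥ pen P0 P1 *ᵥ g := by
  obtain ⟨s, hs⟩ := IsNoetherian.noetherian (bigE P0 P1 Λ)
  have h1 : ∀ v : s, ∃ ξ : Fin n → Polynomial k, ∀ g ∈ Λ, cv v.1 ⬝ᵥ g = ξ ⬝ᵥ pen P0 P1 *ᵥ g :=
    fun v => (hs ▸ Submodule.subset_span v.2 : v.1 ∈ bigE P0 P1 Λ)
  choose ξ hξ using h1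
  refine ⟨Finset.univ.sup fun p : s × Fin n => (ξ p.1 p.2).natDegree, fun v hv => ?_⟩
  rw [← hs] at hv
  induction hv using Submodule.span_induction with
  | mem x hx =>
    exact ⟨ξ ⟨x, hx⟩, fun i => Finset.le_sup (f := fun p : s × Fin n => (ξ p.1 p.2).natDegree)
      (Finset.mem_univ (⟨x, hx⟩, i)), hξ ⟨x, hx⟩⟩
  | zero =>
    refine ⟨0, fun i => by simp, fun g _ => ?_⟩
    have : cv (0 : Fin n → k) = 0 := by ext1 i; simp [cv]
    simp [this]
  | add x y _ _ hx hy =>
    obtain ⟨ξ1, h1, h1'⟩ := hx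
    obtain ⟨ξ2, h2, h2'⟩ := hy
    refine ⟨ξ1 + ξ2, fun i => (Polynomial.natDegree_add_le _ _).trans (max_le (h1 i) (h2 i)),
      fun g hg => ?_⟩
    have : cv (x + y) = cv x + cv y := by ext1 i; simp [cv]
    rw [this, add_dotProduct, add_dotProduct, h1' g hg, h2' g hg]
  | smul r x _ hx =>
    obtain ⟨ξ1, h1, h1'⟩ := hx
    refine ⟨(Polynomial.C r : Polynomial k) • ξ1,
      fun i => (Polynomial.natDegree_C_mul_le _ _).trans (h1 i), fun g hg => ?_⟩
    have : cv (r • x) = (Polynomial.C r : Polynomial k) • cv x := by ext1 i; simp [cv]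
    rw [this, smul_dotProduct, smul_dotProduct, h1' g hg]

lemma dot_span {R : Type*} [CommRing R] {W : Set (Fin n → R)} {η : Fin n → R}
    (h : ∀ g ∈ W, η ⬝ᵥ g = 0) : ∀ g ∈ Submodule.span R W, η ⬝ᵥ g = 0 := by
  intro g hg
  induction hg using Submodule.span_induction with
  | mem x hx => exact h x hx
  | zero => simp
  | add a b _ _ ha hb => rw [dotProduct_add, ha, hb, add_zero]
  | smul r a _ ha => rw [dotProduct_smul, ha, smul_zero]

variable [CharZero K]

lemma coiso_poly {R : Type*} [CommRing R] [IsDomain R] [Algebra K R] (h : Tri c)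
    (φ : MvPolynomial (Fin n) K →ₐ[K] R) (hφ : Function.Injective φ) (η : Fin n → R)
    (hη : ∀ g ∈ Submodule.span R {w | ∃ j, ∃ f ∈ Zc c j, w = φ ∘ grad f}, η ⬝ᵥ g = 0) :
    ∃ q : R, q ≠ 0 ∧ ∃ ζ ∈ Submodule.span R {w | ∃ j, ∃ f ∈ Zc c j, w = φ ∘ grad f},
      q • η = (PM c).map φ *ᵥ ζ := by
  set F := FractionRing R
  let ψ : MvPolynomial (Fin n) K →ₐ[K] F := (IsScalarTower.toAlgHom K R F).comp φ
  have hinj : Function.Injective (algebraMap R F) := IsFractionRing.injective R F
  obtain ⟨ζ, hζ, he⟩ := coiso ψ h (hinj.comp hφ) (algebraMap R F ∘ η) fun j f hf => by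
    have := congrArg (algebraMap R F) (hη _ (Submodule.subset_span ⟨j, f, hf, rfl⟩))
    simpa [dotProduct, ψ] using this
  obtain ⟨t, ht⟩ := multiple_mem_span_of_mem_localization_span (nonZeroDivisors R) F _ ζ hζ
  let T : (Fin n → R) →ₗ[R] (Fin n → F) := (Algebra.linearMap R F).compLeft (Fin n)
  have : {w | ∃ j, ∃ f ∈ Zc c j, w = ψ ∘ grad f} =
      T '' {w | ∃ j, ∃ f ∈ Zc c j, w = φ ∘ grad f} := by
    ext w
    constructor
    · rintro ⟨j, f, hf, rfl⟩; exact ⟨_, ⟨j, f, hf, rfl⟩, rfl⟩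
    · rintro ⟨_, ⟨j, f, hf, rfl⟩, rfl⟩; exact ⟨j, f, hf, rfl⟩
  rw [this, ← Submodule.map_span] at ht
  obtain ⟨ζ', hζ', hT⟩ := ht
  refine ⟨t, nonZeroDivisors.coe_ne_zero t, ζ', hζ', funext fun i => hinj ?_⟩
  have e1 := congrFun he i
  have e2 : ∀ j, algebraMap R F (ζ' j) = algebraMap R F t * ζ j := fun j => by
    have := congrFun hT j
    simpa [T, Submonoid.smul_def, Algebra.smul_def] using this
  simp only [Function.comp_apply] at e1
  simp only [Pi.smul_apply, smul_eq_mul, map_mul, e1, mulVec, dotProduct, map_sum, e2,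
    Finset.mul_sum]
  refine Finset.sum_congr rfl fun j _ => ?_
  simp [ψ]; ring

theorem coord (h : Tri c) (a b : Fin n → K)
    (hreg : ∀ z : Fin n → K, ((PM c).map (eval z)).rank ≤ ((PM c).map (eval b)).rank) :
    ∃ (m : ℕ) (f : Fin m → MvPolynomial (Fin n) K),
      2 * n ≤ 2 * m + ((PM c).map (eval b)).rank ∧
      (∀ i j, grad (f i) ⬝ᵥ PM c *ᵥ grad (f j) = 0 ∧
        grad (f i) ⬝ᵥ ((PM c).map (eval a)).map C *ᵥ grad (f j) = 0) ∧
      ∃ p : MvPolynomial (Fin n) K, p ≠ 0 ∧ ∀ z : Fin n → K, eval z p ≠ 0 →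
        LinearIndependent K fun i => eval z ∘ grad (f i) := by
  classical
  set A := MvPolynomial (Fin n) K
  set k := FractionRing A
  let ι : A →ₐ[K] k := IsScalarTower.toAlgHom K A k
  have hι : Function.Injective ι := IsFractionRing.injective A k
  have hιC : ∀ r : K, ι (C r) = algebraMap K k r := fun r => ι.commutes r
  set Pa := (PM c).map (eval a) with hPa
  set P1 := (PM c).map ι with hP1
  set P0 := Pa.map (algebraMap K k) with hP0
  have hpen : (PM c).map (shf ι a) = pen P0 P1 := shf_PM ι a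
  have h1 : P1ᵀ = -P1 := map_skew ι h
  have h0 : P0ᵀ = -P0 := by
    rw [hP0, hPa, ← transpose_map, ← transpose_map, PM_skew h]; ext; simp
  set W := {w | ∃ j, ∃ f ∈ Zc c j, w = shf ι a ∘ grad f} with hW
  set Λ := Submodule.span (Polynomial k) W with hΛ
  have hiso : ∀ g ∈ Λ, ∀ g' ∈ Λ, g ⬝ᵥ pen P0 P1 *ᵥ g' = 0 := fun g hg g' hg' =>
    hpen ▸ iso_span (shf ι a) h W (fun _ => id) W (fun _ => id) g g' hg hg'
  have hr1 : P1.rank ≤ ((PM c).map (eval b)).rank := rank_map_le (PM c) (ι : A →+* k) _ hreg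
  have hdim : 2 * finrank k (bigE P0 P1 Λ) ≤ P1.rank := by
    refine dimE h0 h1 Λ hiso (fun η hη => hpen ▸ coiso_poly h _ (shf_inj ι a hι) η hη) ?_
    refine le_trans ?_ (rank_eval_le (PM c) (ι : A →+* k) hι b)
    rw [← hpen, Matrix.map_map]
    exact rank_map_le (PM c) ((algebraMap (Polynomial k) (FractionRing (Polynomial k))).comp
      (shf ι a : A →+* Polynomial k)) _ hreg
  obtain ⟨d0, hd⟩ := bigE_deg P0 P1 Λ
  set d := d0 + 1 with hd0
  obtain ⟨B, hB, hB'⟩ := lemmaU (ι.comp (sigA a)) (dl c d)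
    (fun m => (fil K (fun p : Fin n × ℕ => p.1.val) m : Set _)) (fil_zero _)
    (fun m p u hu => fil_der _ _ (dl_fil h d p) m u hu) (fil_ex _) (dl_br h d) (jetO c)
    (dl_jetO h d)
  let w : B → Fin n → k := fun u => ι ∘ grad (sigA a u.1)
  have hw1 : ∀ u, w u ∈ ann (bigE P0 P1 Λ : Set (Fin n → k)) := by
    intro u v hv
    obtain ⟨ξ, hξd, hξ⟩ := hd v hv
    set e : Fin n ×ₗ Fin (d * 2 ^ n + 1) → k :=
      fun p => (((Polynomial.X : Polynomial k) • ξ) (ofLex p).1).coeff (ofLex p).2.val with he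
    have key : ∀ z ∈ jetO c, dirD ι v (sigA a z) = ∑ p, e p * ι (sigA a (dl c d p z)) := by
      intro z hz
      induction hz using Algebra.adjoin_induction with
      | mem z hz =>
        obtain ⟨j, f, hf, l, rfl⟩ := hz
        rw [dir_jet, xi_jet, he, xi_surj ((Polynomial.X : Polynomial k) • ξ)
          (fun i => (Polynomial.natDegree_mul_le (p := Polynomial.X) (q := ξ i)).trans (by
          have := hξd i; rw [Polynomial.natDegree_X]; omega)) (fun i => by simp), hpen,
          hξ _ (Submodule.subset_span ⟨j, f, hf, rfl⟩), smul_dotProduct, smul_eq_mul]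
      | algebraMap r => simp [dirD_apply, grad, dotProduct]
      | add x y _ _ hx hy => simp [hx, hy, mul_add, Finset.sum_add_distrib]
      | mul x y _ _ hx hy =>
        simp only [map_mul, dirD_mul, hx, hy, Derivation.leibniz, smul_eq_mul, map_add,
          Finset.mul_sum, ← Finset.sum_add_distrib]
        exact Finset.sum_congr rfl fun p _ => by ring
    rw [dotProduct_comm]
    refine (key u.1 (hB u.1 u.2).1).trans (Finset.sum_eq_zero fun p _ => ?_)
    have := (hB u.1 u.2).2 p
    rw [AlgHom.comp_apply] at this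
    rw [this, mul_zero]
  set L := Submodule.span k (Set.range w) with hL
  have hw2 : ann (L : Set (Fin n → k)) ≤ bigE P0 P1 Λ := by
    intro v hv
    obtain ⟨e, he⟩ := hB' ((dirD ι v).comp (sigA a).toLinearMap) (fun x y => by simp [dirD_mul])
      fun u hu => hv _ (Submodule.subset_span ⟨⟨u, hu⟩, rfl⟩)
    obtain ⟨ξ, hξ⟩ := xi_dvd e
    refine ⟨ξ, fun g hg => ?_⟩
    rw [← sub_eq_zero, dotProduct_mulVec, ← sub_dotProduct]
    refine dot_span (fun g hg => ?_) g hg
    obtain ⟨j, f, hf, rfl⟩ := hg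
    rw [sub_dotProduct, ← dotProduct_mulVec, sub_eq_zero, ← hpen]
    refine mul_left_cancel₀ Polynomial.X_ne_zero ?_
    rw [← smul_eq_mul Polynomial.X (ξ ⬝ᵥ _), ← smul_dotProduct, ← hξ]
    ext l
    rw [← dir_jet, ← xi_jet]
    exact he _ (Algebra.subset_adjoin ⟨j, f, hf, l, rfl⟩)
  obtain ⟨g, hg, -⟩ := exists_indep (F := k) w
  refine ⟨_, fun i => sigA a (g i).1, ?_, fun i j => ?_, ?_⟩
  · have e1 := finrank_ann L
    have e2 := Submodule.finrank_mono hw2
    rw [Fintype.card_fin] at e1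
    rw [← hL]
    omega
  · obtain ⟨e1, e2⟩ := biIso h0 h1 Λ hiso _ _ (hw1 (g i)) (hw1 (g j))
    refine ⟨hι ?_, hι ?_⟩
    · rw [map_zero, ← e2]
      simp [dotProduct, mulVec, w, hP1]
    · rw [map_zero, ← e1]
      simp [dotProduct, mulVec, w, hP0, hιC]
  · obtain ⟨s, hs⟩ := exists_minor _ hg
    set M : Matrix _ _ A := Matrix.of fun i j => grad (sigA a (g i).1) (s j) with hM
    refine ⟨M.det, fun h0 => hs ?_, fun z hz => ?_⟩
    · have := RingHom.map_det (ι : A →+* k) M
      rw [h0, map_zero] at this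
      rw [this]; rfl
    · rw [RingHom.map_det] at hz
      have h2 := linearIndependent_rows_of_det_ne_zero hz
      exact LinearIndependent.of_comp (LinearMap.funLeft K K s) h2

end Pool.Agent.MP_d920b6_mp.Nil

end

section

namespace Pool.Agent.MP_d920b6_mp.Nil

open Module

variable {K H : Type*} [Field K] [LieRing H] [LieAlgebra K H]

lemma exists_next [LieRing.IsNilpotent H] (W : Submodule K H) (hW : W ≠ ⊤) :
    ∃ ξ, ξ ∉ W ∧ ∀ x : H, ⁅x, ξ⁆ ∈ W := by
  obtain ⟨N, hN⟩ := LieModule.IsNilpotent.nilpotent K H H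
  by_contra hc
  push Not at hc
  have : ∀ j k, k + j = N → ∀ ξ ∈ LieModule.lowerCentralSeries K H H k, ξ ∈ W := by
    intro j
    induction j with
    | zero =>
      intro k hk ξ hξ
      rw [show k = N by omega, hN, LieSubmodule.mem_bot] at hξ
      rw [hξ]; exact zero_mem _
    | succ j ih =>
      intro k hk ξ hξ
      by_contra h
      obtain ⟨x, hx⟩ := hc ξ h
      refine hx (ih (k + 1) (by omega) _ ?_)
      rw [LieModule.lowerCentralSeries_succ]
      exact LieSubmodule.lie_mem_lie (LieSubmodule.mem_top x) hξ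
  exact hW (eq_top_iff.2 fun ξ _ => this N 0 (by omega) ξ (by simp))

lemma exists_flag [LieRing.IsNilpotent H] [FiniteDimensional K H] (j : ℕ) (hj : j ≤ finrank K H) :
    ∃ e : Fin j → H, LinearIndependent K e ∧
      ∀ i, ∀ x : H, ⁅x, e i⁆ ∈ Submodule.span K (e '' {k | k < i}) := by
  induction j with
  | zero => exact ⟨Fin.elim0, linearIndependent_empty_type, fun i => i.elim0⟩
  | succ j ih =>
    obtain ⟨e, he, he'⟩ := ih (by omega)
    obtain ⟨ξ, hξ, hξ'⟩ := exists_next (Submodule.span K (Set.range e)) fun h => by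
      have := finrank_span_eq_card he
      rw [h, finrank_top, Fintype.card_fin] at this
      omega
    refine ⟨Fin.snoc e ξ, linearIndependent_finSnoc.2 ⟨he, hξ⟩, fun i x => ?_⟩
    refine Fin.lastCases ?_ (fun i => ?_) i
    · rw [Fin.snoc_last]
      refine Submodule.span_mono ?_ (hξ' x)
      rintro _ ⟨k, rfl⟩
      exact ⟨k.castSucc, Fin.castSucc_lt_last k, by simp⟩
    · rw [Fin.snoc_castSucc]
      refine Submodule.span_mono ?_ (he' i x)
      rintro _ ⟨k, hk, rfl⟩
      exact ⟨k.castSucc, Fin.castSucc_lt_castSucc_iff.2 hk, by simp⟩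

lemma exists_tri [LieRing.IsNilpotent H] [FiniteDimensional K H] :
    ∃ e : Basis (Fin (finrank K H)) K H, Tri fun i j k => e.repr ⁅e i, e j⁆ k := by
  obtain ⟨e, he, he'⟩ := exists_flag (K := K) (H := H) _ le_rfl
  let B : Basis (Fin (finrank K H)) K H := Basis.mk he
    (he.span_eq_top_of_card_eq_finrank' (by simp)).ge
  have hB : ∀ i, B i = e i := fun i => Basis.mk_apply _ _ _
  refine ⟨B, fun i j k => ?_, fun i j k hk => ?_, fun i j l m => ?_⟩
  · rw [← lie_skew, map_neg]; rfl
  · have h1 := he' j (B i)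
    rw [← hB, show e = B from (funext hB).symm] at h1
    exact B.repr_support_subset_of_mem_span _ h1 (Finsupp.mem_support_iff.2 hk)
  · have e1 : ∀ (x y : H), B.repr ⁅x, y⁆ m = ∑ k, B.repr y k * B.repr ⁅x, B k⁆ m := by
      intro x y
      conv_lhs => rw [← B.sum_repr y]
      simp only [lie_sum, lie_smul, map_sum, map_smul, Finsupp.coe_finsetSum, Finset.sum_apply,
        Finsupp.smul_apply, smul_eq_mul]
    have e2 : ∀ (x y : H), B.repr ⁅x, y⁆ m = ∑ k, B.repr x k * B.repr ⁅B k, y⁆ m := by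
      intro x y
      conv_lhs => rw [← B.sum_repr x]
      simp only [sum_lie, smul_lie, map_sum, map_smul, Finsupp.coe_finsetSum, Finset.sum_apply,
        Finsupp.smul_apply, smul_eq_mul]
    rw [← e1, ← e1, ← e2, lie_lie, map_sub]; rfl

open Matrix MvPolynomial in
lemma PM_eval {n : ℕ} (e : Basis (Fin n) K H) (y : Dual K H) (u v : Fin n → K) :
    u ⬝ᵥ ((PM fun i j k => e.repr ⁅e i, e j⁆ k).map (eval fun i => y (e i))) *ᵥ v =
      y ⁅∑ i, u i • e i, ∑ i, v i • e i⁆ := by
  have e1 : ∀ i j, eval (fun i => y (e i)) (PM (fun i j k => e.repr ⁅e i, e j⁆ k) i j) =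
      y ⁅e i, e j⁆ := by
    intro i j
    conv_rhs => rw [← e.sum_repr ⁅e i, e j⁆, map_sum]
    simp [PM]
  simp only [dotProduct, mulVec, map_apply, e1, sum_lie, lie_sum, smul_lie, lie_smul, map_sum,
    map_smul, smul_eq_mul, Finset.mul_sum]
  rw [Finset.sum_comm]
  exact Finset.sum_congr rfl fun i _ => Finset.sum_congr rfl fun j _ => by ring

open Matrix MvPolynomial in
lemma rank_eval {n : ℕ} (e : Basis (Fin n) K H) (y : Dual K H) (S : Submodule K H)
    (hS : ∀ ξ, ξ ∈ S ↔ ∀ η, y ⁅ξ, η⁆ = 0) :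
    ((PM fun i j k => e.repr ⁅e i, e j⁆ k).map (eval fun i => y (e i))).rank + finrank K S = n := by
  set M := (PM fun i j k => e.repr ⁅e i, e j⁆ k).map (eval fun i => y (e i)) with hM
  have h1 := LinearMap.finrank_range_add_finrank_ker M.mulVecLin
  have h2 : (LinearMap.ker M.mulVecLin).map e.equivFun.symm.toLinearMap = S := by
    ext ξ
    rw [hS]
    constructor
    · rintro ⟨v, hv, rfl⟩ η
      have hv' : M *ᵥ v = 0 := hv
      have := PM_eval e y (e.equivFun η) v
      rw [← hM, hv', dotProduct_zero] at this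
      rw [← lie_skew, map_neg, neg_eq_zero, this]
      simp
    · intro h
      refine ⟨e.equivFun ξ, ?_, by simp⟩
      ext i
      have := PM_eval e y (Pi.single i 1) (e.equivFun ξ)
      rw [← hM, single_one_dotProduct, ← lie_skew, map_neg] at this
      simp only [Basis.equivFun_apply, Basis.sum_repr, h, neg_zero] at this
      exact this
  rw [← h2, LinearEquiv.finrank_map_eq]
  rw [finrank_fintype_fun_eq_card, Fintype.card_fin] at h1
  exact h1

end Pool.Agent.MP_d920b6_mp.Nil

end
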